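import Pool.Agent.Y101.Aq.Core

/-!
# Adequate equivalence relations and vector bundles: the bundle attached to a class
-/

open CategoryTheory AlgebraicGeometry Finset

universe u v w

namespace Pool.Agent.Y101.Aq

open Pool.Agent.H914 Pool.Agent.H914.VarClass Pool.Agent.H914.VarClass.Obj Pool.Agent.W492.BB

section Alg

variable {A B : Type*} [Ring A] [Algebra ℚ A] [Ring B] [Algebra ℚ B]

/-- The exponential formula for an element and its opposite. -/
lemma exp_neg_sum (l : A) {j : ℕ} (hj : 1 ≤ j) :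
    ∑ b ∈ range (j + 1), ((b.factorial : ℚ)⁻¹ * ((j - b).factorial : ℚ)⁻¹) •
      (l ^ (j - b) * (-l) ^ b) = 0 := by
  have hc : Commute (-l) l := (Commute.refl l).neg_left
  have h1 := hc.add_pow j
  rw [neg_add_cancel, zero_pow (by omega)] at h1
  have h2 : ∑ b ∈ range (j + 1), ((b.factorial : ℚ)⁻¹ * ((j - b).factorial : ℚ)⁻¹) •
      (l ^ (j - b) * (-l) ^ b) = (j.factorial : ℚ)⁻¹ • ∑ m ∈ range (j + 1),
        (-l) ^ m * l ^ (j - m) * (j.choose m : A) := by
    rw [Finset.smul_sum]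
    apply Finset.sum_congr rfl
    intro m hm
    rw [Finset.mem_range] at hm
    have h3 : ((j.choose m : ℕ) : A) = (((j.choose m : ℕ) : ℚ)) • (1 : A) := by
      rw [← Algebra.algebraMap_eq_smul_one, map_natCast]
    rw [h3, mul_smul_comm, mul_one, smul_smul, (hc.pow_pow m (j - m)).eq]
    congr 1
    have h4 : (j.factorial : ℚ) ≠ 0 := Nat.cast_ne_zero.2 (Nat.factorial_ne_zero _)
    have h5 : (m.factorial : ℚ) ≠ 0 := Nat.cast_ne_zero.2 (Nat.factorial_ne_zero _)
    have h6 : ((j - m).factorial : ℚ) ≠ 0 := Nat.cast_ne_zero.2 (Nat.factorial_ne_zero _)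
    have h7 : ((j.choose m : ℕ) : ℚ) * m.factorial * (j - m).factorial = j.factorial := by
      exact_mod_cast Nat.choose_mul_factorial_mul_factorial (show m ≤ j by omega)
    rw [← h7]
    have h8 : ((j.choose m : ℕ) : ℚ) ≠ 0 := by
      intro h
      rw [h, zero_mul, zero_mul] at h7
      exact h4 h7.symm
    field_simp
  rw [h2, ← h1, smul_zero]

/-- The Chern classes of the formal twist: `c'_i = ∑ (-1) ^ (i-j) C(r-j, i-j) c_j a ^ (i-j)`. -/
def shiftC (c : ℕ → A) (a : A) (r i : ℕ) : A :=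
  ∑ j ∈ range (i + 1), ((-1) ^ (i - j) * ((r - j).choose (i - j) : ℚ)) • (c j * a ^ (i - j))

lemma natCast_smul_one (n : ℕ) : ((n : ℕ) : A) = ((n : ℕ) : ℚ) • (1 : A) := by
  rw [← Algebra.algebraMap_eq_smul_one, map_natCast]

lemma neg_pow_smul (x : A) (n : ℕ) : (-x) ^ n = ((-1 : ℚ) ^ n) • x ^ n := by
  rw [← neg_one_smul ℚ x, _root_.smul_pow]

/-- The formulas for the projective bundle in terms of `ξ - a`. -/
lemma ProjFormula.shift {q : A →ₐ[ℚ] B} {q' : B →ₗ[ℚ] A} {c : ℕ → A} {ξ : B} {r : ℕ}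
    (h : ProjFormula q q' c ξ r) {a : A} (hr : 1 ≤ r)
    (hcomm : q a * ξ = ξ * q a) (hpush : ∀ i n, q' ((q a) ^ i * ξ ^ n) = a ^ i * q' (ξ ^ n)) :
    ProjFormula q q' (shiftC c a r) (ξ - q a) r := by
  have hc : Commute (q a) ξ := hcomm
  have hce : Commute ξ (-(q a)) := hc.symm.neg_right
  have hexp : ∀ i, q' ((ξ - q a) ^ i) = ∑ m ∈ range (i + 1),
      ((-1) ^ (i - m) * (i.choose m : ℚ)) • (a ^ (i - m) * q' (ξ ^ m)) := by
    intro i
    rw [sub_eq_add_neg, hce.add_pow, map_sum]
    apply Finset.sum_congr rfl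
    intro m _
    have e1 : ξ ^ m * (-(q a)) ^ (i - m) * ((i.choose m : ℕ) : B) =
        ((-1) ^ (i - m) * (i.choose m : ℚ)) • ((q a) ^ (i - m) * ξ ^ m) := by
      rw [natCast_smul_one, mul_smul_comm, mul_one, neg_pow_smul, mul_smul_comm, smul_smul,
        mul_comm ((i.choose m : ℕ) : ℚ), (hc.pow_pow (i - m) m).eq]
    rw [e1, map_smul, hpush]
  refine ⟨?_, ?_, ?_⟩
  · -- the relation
    set η := ξ - q a with hη
    have hηc : Commute (q a) η := hc.sub_right (Commute.refl _)
    have hsum : ∀ n, ξ ^ n = ∑ s ∈ range (n + 1), ((n.choose s : ℕ) : ℚ) • ((q a) ^ s * η ^ (n - s)) := by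
      intro n
      have h1 : ξ = q a + η := by rw [hη]; abel
      conv_lhs => rw [h1, hηc.add_pow]
      apply Finset.sum_congr rfl
      intro s _
      rw [natCast_smul_one, mul_smul_comm, mul_one]
    have h2 := h.rel
    have h3 : ∀ j ∈ range (r + 1), (-1 : ℚ) ^ j • (q (c j) * ξ ^ (r - j)) =
        ∑ s ∈ range (r + 1 - j), ((-1 : ℚ) ^ j * ((r - j).choose s : ℚ)) •
          (q (c j) * ((q a) ^ s * η ^ (r - (j + s)))) := by
      intro j hj
      rw [Finset.mem_range] at hj
      rw [hsum, Finset.mul_sum, Finset.smul_sum, show r + 1 - j = r - j + 1 by omega]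
      apply Finset.sum_congr rfl
      intro s _
      rw [mul_smul_comm, smul_smul, Nat.sub_sub]
    rw [Finset.sum_congr rfl h3] at h2
    have h4 := Finset.sum_range_diag_flip (r + 1) (fun j s =>
      ((-1 : ℚ) ^ j * ((r - j).choose s : ℚ)) • (q (c j) * ((q a) ^ s * η ^ (r - (j + s)))))
    rw [← h4] at h2
    rw [← h2]
    apply Finset.sum_congr rfl
    intro i hi
    rw [Finset.mem_range] at hi
    rw [shiftC, map_sum, Finset.sum_mul, Finset.smul_sum]
    apply Finset.sum_congr rfl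
    intro j hj
    rw [Finset.mem_range] at hj
    rw [map_smul, map_mul, map_pow, smul_mul_assoc, smul_smul, mul_assoc,
      show j + (i - j) = i by omega]
    congr 1
    rw [← mul_assoc]
    congr 1
    rw [← pow_add, show i + (i - j) = j + 2 * (i - j) by omega, pow_add, pow_mul, neg_one_sq,
      one_pow, mul_one]
  · rw [hexp, Finset.sum_range_succ, Finset.sum_eq_zero, zero_add, Nat.sub_self, pow_zero,
      Nat.choose_self, Nat.cast_one, one_mul, one_smul, pow_zero, one_mul, h.top]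
    intro m hm
    rw [Finset.mem_range] at hm
    rw [h.low m (by omega), mul_zero, smul_zero]
  · intro i hi
    rw [hexp]
    apply Finset.sum_eq_zero
    intro m hm
    rw [Finset.mem_range] at hm
    rw [h.low m (by omega), mul_zero, smul_zero]

end Alg

end Pool.Agent.Y101.Aq
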