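import Pool.Agent.Y101.Aq.Mid

/-!
# Adequate equivalence relations and the powers of the canonical classes
-/

open CategoryTheory AlgebraicGeometry Finset

universe u v w

namespace Pool.Agent.Y101.Aq

open Pool.Agent.H914 Pool.Agent.H914.VarClass Pool.Agent.H914.VarClass.Obj Pool.Agent.W492.BB

section Alg

variable {A B : Type*} [Ring A] [Algebra ℚ A] [Ring B] [Algebra ℚ B]

/-- The Chern classes of the sum of a bundle and a line bundle. -/
def wh (c : ℕ → A) (K : A) : ℕ → A
  | 0 => c 0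
  | i + 1 => c (i + 1) + K * c i

lemma wh_zero (c : ℕ → A) (K : A) : wh c K 0 = c 0 := rfl

lemma wh_succ (c : ℕ → A) (K : A) (i : ℕ) : wh c K (i + 1) = c (i + 1) + K * c i := rfl

lemma wh_tele (c : ℕ → A) (K : A) (i : ℕ) :
    ∑ j ∈ range (i + 1), (-1 : ℚ) ^ j • (K ^ (j + 1) * wh c K (i - j)) = K * c i := by
  have h1 : ∀ n ≤ i, ∑ j ∈ range n, (-1 : ℚ) ^ j • (K ^ (j + 1) * wh c K (i - j)) =
      K * c i - (-1 : ℚ) ^ n • (K ^ (n + 1) * c (i - n)) := by
    intro n
    induction n with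
    | zero =>
      intro _
      simp
    | succ n ih =>
      intro hn
      rw [Finset.sum_range_succ, ih (by omega)]
      obtain ⟨m, hm⟩ : ∃ m, i - n = m + 1 := ⟨i - n - 1, by omega⟩
      rw [hm, wh_succ, show i - (n + 1) = m by omega, mul_add, smul_add, pow_succ (-1 : ℚ) n,
        mul_neg_one, neg_smul, sub_neg_eq_add, pow_succ K (n + 1), mul_assoc]
      abel
  rw [Finset.sum_range_succ, h1 i le_rfl, Nat.sub_self, wh_zero, sub_add_cancel]

/-- Newton's identities for the sum of a bundle and a line bundle. -/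
lemma newton_wh {c ch : ℕ → A} {K : A} (h : Newton c ch) (hK : ∀ j, K * ch j = ch j * K) :
    Newton (wh c K) (fun i => ch i + expS K i) := by
  refine ⟨h.1, fun i => ?_⟩
  have e1 : ∀ j ∈ range (i + 1), ((-1 : ℚ) ^ j * ((j + 1).factorial : ℚ)) •
      ((ch (j + 1) + expS K (j + 1)) * wh c K (i - j)) =
      ((-1 : ℚ) ^ j * ((j + 1).factorial : ℚ)) • (ch (j + 1) * wh c K (i - j)) +
        (-1 : ℚ) ^ j • (K ^ (j + 1) * wh c K (i - j)) := by
    intro j _
    have h5 : ((j + 1).factorial : ℚ) ≠ 0 := Nat.cast_ne_zero.2 (Nat.factorial_ne_zero _)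
    rw [add_mul, smul_add, expS, smul_mul_assoc, smul_smul, mul_assoc, mul_inv_cancel₀ h5, mul_one]
  rw [Finset.sum_congr rfl e1, Finset.sum_add_distrib, wh_tele, wh_succ]
  have e2 : ∑ j ∈ range (i + 1), ((-1 : ℚ) ^ j * ((j + 1).factorial : ℚ)) •
      (ch (j + 1) * wh c K (i - j)) = ((i : ℚ) + 1) • c (i + 1) + (i : ℚ) • (K * c i) := by
    rw [h.2 i]
    rcases i with _ | i
    · simp [wh_zero]
    · have e3 : (((i + 1 : ℕ) : ℚ)) • (K * c (i + 1)) = ∑ j ∈ range (i + 1),
          ((-1 : ℚ) ^ j * ((j + 1).factorial : ℚ)) • (ch (j + 1) * (K * c (i - j))) := by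
        rw [← mul_smul_comm]
        have := h.2 i
        push_cast
        rw [this, Finset.mul_sum]
        apply Finset.sum_congr rfl
        intro j _
        rw [mul_smul_comm, ← mul_assoc, hK, mul_assoc]
      have e4 : ∑ j ∈ range (i + 1), ((-1 : ℚ) ^ j * ((j + 1).factorial : ℚ)) •
          (ch (j + 1) * wh c K (i + 1 - j)) = ∑ j ∈ range (i + 1),
            ((-1 : ℚ) ^ j * ((j + 1).factorial : ℚ)) • (ch (j + 1) * c (i + 1 - j)) +
              ∑ j ∈ range (i + 1),
                ((-1 : ℚ) ^ j * ((j + 1).factorial : ℚ)) • (ch (j + 1) * (K * c (i - j))) := by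
        rw [← Finset.sum_add_distrib]
        apply Finset.sum_congr rfl
        intro j hj
        rw [Finset.mem_range] at hj
        obtain ⟨m, hm⟩ : ∃ m, i + 1 - j = m + 1 := ⟨i - j, by omega⟩
        rw [hm, wh_succ, show i - j = m by omega, mul_add, smul_add]
      rw [e3, Finset.sum_range_succ, Finset.sum_range_succ _ (i + 1), Nat.sub_self, wh_zero, e4]
      abel
  rw [e2, add_assoc, smul_add, add_smul _ _ (K * c i), one_smul]

/-- The relation for `ξ` multiplied by `ξ - K`. -/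
lemma rel_wh {q : A →ₐ[ℚ] B} {q' : B →ₗ[ℚ] A} {c : ℕ → A} {ξ : B} {r : ℕ}
    (h : ProjFormula q q' c ξ r) (K : A) (hc : c (r + 1) = 0) (hKξ : q K * ξ = ξ * q K)
    (hξc : ∀ i, ξ * q (c i) = q (c i) * ξ) :
    ∑ i ∈ range (r + 2), (-1 : ℚ) ^ i • (q (wh c K i) * ξ ^ (r + 1 - i)) = 0 := by
  have h1 : (ξ - q K) * ∑ i ∈ range (r + 1), (-1 : ℚ) ^ i • (q (c i) * ξ ^ (r - i)) = 0 := by
    rw [h.rel, mul_zero]
  rw [sub_mul, Finset.mul_sum, Finset.mul_sum] at h1
  rw [← h1, Finset.sum_range_succ', wh_zero, pow_zero, one_smul, Nat.sub_zero]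
  have h2 : ∀ i ∈ range (r + 1), (-1 : ℚ) ^ (i + 1) • (q (wh c K (i + 1)) *
      ξ ^ (r + 1 - (i + 1))) = (-1 : ℚ) ^ (i + 1) • (q (c (i + 1)) * ξ ^ (r - i)) -
        q K * ((-1 : ℚ) ^ i • (q (c i) * ξ ^ (r - i))) := by
    intro i _
    rw [wh_succ, map_add, add_mul, smul_add, map_mul, Nat.add_sub_add_right, mul_smul_comm,
      pow_succ (-1 : ℚ) i, mul_neg_one, neg_smul, neg_smul, mul_assoc]
    abel
  rw [Finset.sum_congr rfl h2, Finset.sum_sub_distrib]
  have h3 : ∑ i ∈ range (r + 1), ξ * ((-1 : ℚ) ^ i • (q (c i) * ξ ^ (r - i))) =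
      ∑ i ∈ range (r + 1), (-1 : ℚ) ^ (i + 1) • (q (c (i + 1)) * ξ ^ (r - i)) +
        q (c 0) * ξ ^ (r + 1) := by
    set f : ℕ → B := fun i => (-1 : ℚ) ^ i • (q (c i) * ξ ^ (r + 1 - i)) with hf
    have e1 : ∀ i ∈ range (r + 1), ξ * ((-1 : ℚ) ^ i • (q (c i) * ξ ^ (r - i))) = f i := by
      intro i hi
      rw [Finset.mem_range] at hi
      rw [hf]
      simp only
      rw [mul_smul_comm, ← mul_assoc, hξc, mul_assoc, ← pow_succ',
        show r - i + 1 = r + 1 - i by omega]
    have e2 : ∑ i ∈ range (r + 1), (-1 : ℚ) ^ (i + 1) • (q (c (i + 1)) * ξ ^ (r - i)) =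
        ∑ i ∈ range (r + 1), f (i + 1) := by
      apply Finset.sum_congr rfl
      intro i _
      rw [hf]
      simp only
      rw [Nat.add_sub_add_right]
    have e3 : q (c 0) * ξ ^ (r + 1) = f 0 := by
      rw [hf]
      simp
    have e4 : f (r + 1) = 0 := by
      rw [hf]
      simp only
      rw [hc, map_zero, zero_mul, smul_zero]
    rw [Finset.sum_congr rfl e1, e2, e3, ← Finset.sum_range_succ' f (r + 1),
      Finset.sum_range_succ f (r + 1), e4, add_zero]
  rw [h3]
  abel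

end Alg

variable {k : Type u} [Field k] {𝒱 : VarClass k} {C : TheoryData.{u, v, 0} 𝒱 ℚ}
  {D : BundleData.{u, v, w} C}

section

variable (hC : IsBasic C)
include hC

/-- The class `ξ ^ (r + 1)` for a relation `∑ (-1) ^ i b_i ξ ^ (r + 1 - i) = 0` with `b_1 = 0`. -/
theorem xi_succ_iff {I : Family C} (hI : IsAdequate I) {X T : 𝒱.Obj} {q : T ⟶ X} {b : ℕ → C.A X}
    {ξ : C.A T} {r : ℕ} (hr : 1 ≤ r) (hdim : T.dim + 1 = X.dim + r) (hξ : C.Deg (1 : ℕ) ξ)
    (hb : ∀ i : ℕ, C.Deg i (b i)) (hb0 : b 0 = 1) (hb1 : b 1 = 0)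
    (hrel : ∑ i ∈ range (r + 2), (-1 : ℚ) ^ i • (C.pull q (b i) * ξ ^ (r + 1 - i)) = 0)
    (htop : C.push q (ξ ^ (r - 1)) = 1) (hlow : ∀ i, i + 1 < r → C.push q (ξ ^ i) = 0) :
    ξ ^ (r + 1) ∈ I T (r + 1) ↔ ∀ i, 2 ≤ i → i ≤ r + 1 → b i ∈ I X i := by
  have hξn := pow_deg hC hξ
  constructor
  · intro h i hi hir
    induction i using Nat.strong_induction_on with
    | _ i ih =>
    have h1 : ∑ m ∈ range (r + 2), (-1 : ℚ) ^ m •
        (b m * C.push q (ξ ^ (r + 1 - m + (i - 2)))) = 0 := by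
      have h2 := congrArg (fun y => C.push q (y * ξ ^ (i - 2))) hrel
      simp only [zero_mul, map_zero, Finset.sum_mul, map_sum] at h2
      rw [← h2]
      apply Finset.sum_congr rfl
      intro m _
      rw [smul_mul_assoc, map_smul, mul_assoc, ← pow_add, push_pull hC q (hξn _) (hb m)]
    rw [← Finset.add_sum_erase _ _ (Finset.mem_range.2 (show i < r + 2 by omega)),
      show r + 1 - i + (i - 2) = r - 1 by omega, htop, mul_one] at h1
    have h3 : (-1 : ℚ) ^ i • b i ∈ I X i := by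
      rw [eq_neg_of_add_eq_zero_left h1]
      apply Submodule.neg_mem
      apply Submodule.sum_mem
      intro m hm
      rw [Finset.mem_erase, Finset.mem_range] at hm
      apply Submodule.smul_mem
      have hdeg : C.Deg ((r + 1 - m + (i - 2) : ℕ) : ℤ) (ξ ^ (r + 1 - m + (i - 2))) := hξn _
      rcases Nat.eq_zero_or_pos m with rfl | hm0
      · rw [hb0, one_mul]
        apply hI.push q (i := r + 1 + (i - 2)) (by omega)
        rw [Nat.sub_zero, pow_add]
        exact hI.mul h (hξn _)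
      · rcases Nat.lt_or_ge m 2 with hm2 | hm2
        · obtain rfl : m = 1 := by omega
          rw [hb1, zero_mul]
          exact Submodule.zero_mem _
        · rcases Nat.lt_or_ge m i with hmi | hmi
          · have h4 := hC.push_mem q (i := r + 1 - m + (i - 2)) (j := i - m) (by omega) hdeg
            exact IsAdequate.cast (hI.mul (ih m hmi hm2 (by omega)) h4) (by omega)
          · rw [hlow _ (by omega), mul_zero]
            exact Submodule.zero_mem _
    have h4 := Submodule.smul_mem _ ((-1 : ℚ) ^ i) h3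
    rwa [smul_smul, ← mul_pow, neg_mul_neg, one_mul, one_pow, one_smul] at h4
  · intro h
    rw [Finset.sum_range_succ', Finset.sum_range_succ', pow_zero, one_smul, hb0, map_one, one_mul,
      Nat.sub_zero, zero_add, hb1, map_zero, zero_mul, smul_zero, add_zero] at hrel
    rw [eq_neg_of_add_eq_zero_right hrel]
    apply Submodule.neg_mem
    apply Submodule.sum_mem
    intro i hi
    rw [Finset.mem_range] at hi
    apply Submodule.smul_mem
    exact IsAdequate.cast (hI.mul (hI.pull q (h (i + 1 + 1) (by omega) (by omega))) (hξn _))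
      (by omega)

variable (hD : IsBundleTheory D)
include hD

/-- The canonical class of `P(E)` for a bundle with `c_1(E) = - can X`. -/
lemma can_pow_iff {can : ∀ X : 𝒱.Obj, C.A X} (hcan : IsCanonical D can) {I : Family C}
    (hI : IsAdequate I) {X : 𝒱.Obj} (E : D.B X) (hr : 1 ≤ D.rk E)
    (hb1 : wh (D.c E) (can X) 1 = 0) :
    can (D.P E) ^ (D.rk E + 1) ∈ I (D.P E) (D.rk E + 1) ↔
      ∀ i, 2 ≤ i → wh (D.c E) (can X) i ∈ I X i := by
  have hK : C.Deg (1 : ℕ) (can X) := L_deg hC hD (hcan.mem X)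
  have hc := fun i => hD.chern.c_mem E i
  have hξ := L_deg hC hD (hD.proj.xi_mem E hr)
  have hξn := pow_deg hC hξ
  have hF := hD.proj.formula E hr
  have hc0 := (hD.chern.newton E).1
  have hb : ∀ i : ℕ, C.Deg i (wh (D.c E) (can X) i) := by
    intro i
    rcases i with _ | i
    · exact hc 0
    · exact Submodule.add_mem _ (hc (i + 1)) (deg_cast (hC.mul_mem hK (hc i)) (add_comm _ _))
  have hcan1 : can (D.P E) = (-(D.rk E : ℚ)) • D.ξ E := by
    have h1 : can X + D.c E 1 = 0 := by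
      rw [← hb1, wh_succ, hc0, mul_one, add_comm]
    rw [hcan.proj E hr, h1]
    show C.pull (D.q E) 0 - _ = _
    rw [map_zero, zero_sub, neg_smul]
  have hrel := rel_wh hF (can X) (hD.chern.c_top E _ (by omega))
    (hC.comm (hC.pull_mem (D.q E) hK) hξ) (fun i => hC.comm hξ (hC.pull_mem (D.q E) (hc i)))
  rw [hcan1, _root_.smul_pow, smul_mem_iff' _ (pow_ne_zero _ (neg_ne_zero.2
    (Nat.cast_ne_zero.2 (by omega)))), xi_succ_iff hC hI hr (hD.proj.dim E hr) hξ hb hc0 hb1 hrel
      hF.top hF.low]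
  constructor
  · intro h i hi
    by_cases hir : i ≤ D.rk E + 1
    · exact h i hi hir
    · obtain ⟨m, rfl⟩ : ∃ m, i = m + 1 := ⟨i - 1, by omega⟩
      rw [wh_succ, hD.chern.c_top E _ (by omega), hD.chern.c_top E m (by omega), mul_zero,
        add_zero]
      exact Submodule.zero_mem _
  · intro h i hi _
    exact h i hi

/-- The powers of the canonical classes of the projective bundles over `X`. -/
theorem can_step {can : ∀ X : 𝒱.Obj, C.A X} (hcan : IsCanonical D can) {I J : Family C}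
    (hI : IsAdequate I) (hJ : IsAdequate J) (X : 𝒱.Obj)
    (h : ImpliesForAnti D can I J X) (i : ℕ) (hi : 2 ≤ i) (x : C.A X) (hx : x ∈ I X i) :
    x ∈ J X i := by
  have hK : C.Deg (1 : ℕ) (can X) := L_deg hC hD (hcan.mem X)
  obtain ⟨F, hF⟩ := isCh_exp hD (hcan.mem X)
  obtain ⟨n, r, hn, hE₀⟩ := exists_bundle hD hC (by omega) (hI.le X i hx) F
  obtain ⟨E₀, hE₀⟩ := hE₀
  obtain ⟨O, hO, hO'⟩ := hD.operations.triv X 1
  obtain ⟨E, hErk, hE⟩ := hD.operations.sum E₀ O
  have hr : 1 ≤ D.rk E := by omega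
  set b := wh (D.c E) (can X) with hb
  have hnewton : Newton b (fun i => D.ch E i + expS (can X) i) :=
    newton_wh (hD.chern.newton E) (fun j => hC.comm hK (hD.chern.ch_mem E j))
  have hch : ∀ j, 1 ≤ j → D.ch E j + expS (can X) j = if j = i then (n : ℚ) • x else 0 := by
    intro j hj
    have e : cst (C.A X) r j = 0 := by unfold cst; rw [if_neg (by omega)]
    rw [hE, hO' j hj, add_zero, hE₀ j]
    beta_reduce
    rw [hF j, e]
    abel
  have hexp : ∀ j : ℕ, C.Deg j (expS (can X) j) := fun j =>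
    Submodule.smul_mem _ _ (pow_deg hC hK j)
  have hbdeg : ∀ j : ℕ, C.Deg j (b j) := by
    intro j
    rcases j with _ | j
    · exact hD.chern.c_mem E 0
    · exact Submodule.add_mem _ (hD.chern.c_mem E (j + 1))
        (deg_cast (hC.mul_mem hK (hD.chern.c_mem E j)) (add_comm _ _))
  have hb1 : b 1 = 0 := by
    have h1 := hnewton.2 0
    simp only [zero_add, Finset.range_one, Finset.sum_singleton, pow_zero, Nat.factorial_one,
      Nat.cast_one, mul_one, one_smul, Nat.sub_zero, Nat.cast_zero] at h1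
    rw [h1, hch 1 le_rfl, if_neg (by omega), zero_mul]
  have hbI : ∀ j, 1 ≤ j → b j ∈ I X j := by
    refine c_of_ch hC hI hnewton hbdeg ?_
    intro j hj
    rw [hch j hj]
    split_ifs with hji
    · subst hji
      exact Submodule.smul_mem _ _ hx
    · exact Submodule.zero_mem _
  have h1 := (can_pow_iff hC hD hcan hI E hr hb1).2 (fun j hj => hbI j (by omega))
  have hc1 : can X + D.c E 1 = 0 := by
    have h5 : b 1 = D.c E 1 + can X * D.c E 0 := rfl
    rw [(hD.chern.newton E).1, mul_one, hb1] at h5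
    rw [add_comm, ← h5]
  have h2 := (can_pow_iff hC hD hcan hJ E hr hb1).1 (h E hr hc1 h1)
  have hbJ : ∀ j, 1 ≤ j → b j ∈ J X j := by
    intro j hj
    rcases Nat.lt_or_ge j 2 with hj2 | hj2
    · obtain rfl : j = 1 := by omega
      rw [hb1]
      exact Submodule.zero_mem _
    · exact h2 j hj2
  have h3 := ch_of_c hC hJ hnewton
    (fun j => Submodule.add_mem _ (hD.chern.ch_mem E j) (hexp j)) hbJ i (by omega)
  beta_reduce at h3
  rw [hch i (by omega), if_pos rfl] at h3
  exact (smul_mem_iff' _ (Nat.cast_ne_zero.2 (by omega))).1 h3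

/-- It is enough to consider the rational varieties. -/
lemma implies_of_centre {R : 𝒱.Obj → Prop} (hR : ∀ V : 𝒱.Obj, ∃ (T F : 𝒱.Obj) (j : F ⟶ T)
    (g : F ⟶ V) (ζ : C.A F) (c : ℕ), R T ∧ IsCentre C j g ζ c) {I J : Family C}
    (hI : IsAdequate I) (hJ : IsAdequate J) (h : ∀ X, R X → Implies I J X) (V : 𝒱.Obj) :
    Implies I J V := by
  intro i hi x hx
  obtain ⟨T, F, j, g, ζ, c, hT, hc⟩ := hR V
  have hζ : C.Deg (1 : ℕ) ζ := by exact_mod_cast hc.deg
  have h1 := hI.push j (i := i) (j := i + 1) (by rw [hc.dimT]; ring) (hI.pull g hx)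
  have h2 := hJ.pull j (h T hT (i + 1) (by omega) _ h1)
  have h3 : C.pull j (C.push j (C.pull g x)) = ζ * C.pull g x := hc.formula.self _
  have h4 : ζ * C.pull g x ∈ J F (i + 1) := by
    rw [← h3]; exact h2
  have h5 := IsAdequate.mul_left hC hJ (pow_deg hC hζ (c - 1)) h4
  have hxg : C.Deg (i : ℕ) (C.pull g x) := hC.pull_mem g (hI.le V i hx)
  have h6 : ζ ^ (c - 1) * (ζ * C.pull g x) = C.pull g x * ζ ^ c := by
    have hpos := hc.pos
    rw [← mul_assoc, ← pow_succ, show c - 1 + 1 = c by omega,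
      hC.comm (pow_deg hC hζ c) hxg]
  rw [h6] at h5
  have h7 := hJ.push g (j := i) (by rw [hc.dimF]; have := hc.pos; omega) h5
  have h8 : C.push g (C.pull g x * ζ ^ c) = x * C.push g (ζ ^ c) :=
    hC.proj g (pow_deg hC hζ c) (hI.le V i hx)
  have h9 : x * C.push g (ζ ^ c) = ((-1 : ℚ) ^ c) • x := by
    rw [hc.formula.top]
    have := neg_pow_smul (1 : C.A V) c
    rw [one_pow] at this
    rw [this, mul_smul_comm, mul_one]
  have h10 : ((-1 : ℚ) ^ c) • x ∈ J V i := by
    rw [← h9, ← h8]; exact h7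
  exact (smul_mem_iff' _ (pow_ne_zero _ (by norm_num))).1 h10

/-- Divisor classes as classes of codimension two on a product with a projective line. -/
lemma codim_one {I J : Family C} (hI : IsAdequate I) (hJ : IsAdequate J) (X : 𝒱.Obj)
    (h : ∀ E : D.B X, 1 ≤ D.rk E → ∀ x ∈ I (D.P E) 2, x ∈ J (D.P E) 2) (x : C.A X)
    (hx : x ∈ I X 1) : x ∈ J X 1 := by
  obtain ⟨E, hr, hdim, -, htop, -⟩ := exists_product hC hD X 1
  have hξ := L_deg hC hD (hD.proj.xi_mem E hr)
  have h1 := h E hr _ (hI.mul (hI.pull (D.q E) hx) hξ)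
  have h2 := hJ.push (D.q E) (j := 1) (by omega) h1
  have h3 : C.push (D.q E) (C.pull (D.q E) x * D.ξ E) = x := by
    rw [pow_one] at htop
    rw [push_pull hC (D.q E) hξ (hI.le X 1 hx), htop, mul_one]
  have h4 : C.down (D.q E) (C.mul (C.up (D.q E) x) (D.ξ E)) = x := h3
  rwa [h4] at h2

/-- **Adequate equivalence relations are determined by the powers of the canonical classes of the
rational varieties.** -/
theorem canonical_global {can : ∀ X : 𝒱.Obj, C.A X} (hcan : IsCanonical D can)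
    {R : 𝒱.Obj → Prop} (hR : IsRationalClass D R) {I J : Family C} (hI : IsAdequate I)
    (hJ : IsAdequate J) :
    List.TFAE [∀ X, Implies I J X, ∀ X, R X → ImpliesForBundles D I J X,
      ∀ X, R X → ImpliesInMiddle D I J X, ∀ X, R X → ImpliesForCan can I J X] := by
  have h := middle_tfae hC hD hR hI hJ
  tfae_have 1 ↔ 2 := h.out 0 2
  tfae_have 1 ↔ 3 := h.out 0 3
  tfae_have 1 → 4 := fun h X _ n hn hx => h X n hn _ hx
  tfae_have 4 → 1 := by
    intro h
    have h2 : ∀ X, R X → ∀ i, 2 ≤ i → ∀ x ∈ I X i, x ∈ J X i := fun X hX =>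
      can_step hC hD hcan hI hJ X (fun E hr _ => h _ (hR.proj X hX E hr) _ (by omega))
    refine implies_of_centre hC hD hR.centre hI hJ ?_
    intro X hX i hi
    rcases Nat.lt_or_ge i 2 with hi2 | hi2
    · obtain rfl : i = 1 := by omega
      exact codim_one hC hD hI hJ X (fun E hr => h2 _ (hR.proj X hX E hr) 2 le_rfl)
    · exact h2 X hX i hi2
  tfae_finish

end

end Pool.Agent.Y101.Aq
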