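import Pool.Agent.Y101.Aq.Can

/-!
# Adequate equivalence relations on one variety and projective bundles
-/

open CategoryTheory AlgebraicGeometry Finset

universe u v w

namespace Pool.Agent.Y101.Aq

open Pool.Agent.H914 Pool.Agent.H914.VarClass Pool.Agent.H914.VarClass.Obj Pool.Agent.W492.BB

variable {k : Type u} [Field k] {𝒱 : VarClass k} {C : TheoryData.{u, v, 0} 𝒱 ℚ}
  {D : BundleData.{u, v, w} C}

section

variable (hC : IsBasic C) (hD : IsBundleTheory D)
include hC hD

/-- The coefficients of a class on `P(E)` which is equivalent to zero are equivalent to zero. -/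
lemma coeff_mem {I : Family C} (hI : IsAdequate I) {X : 𝒱.Obj} (E : D.B X) (hr : 1 ≤ D.rk E)
    {N : ℕ} {y : C.A (D.P E)} (hy : y ∈ I (D.P E) N) {a : ℕ → C.A X}
    (ha : ∀ i : ℕ, C.Deg ((N : ℤ) - i) (a i))
    (hya : y = ∑ i ∈ range (D.rk E), C.mul (C.up (D.q E) (a i)) (D.ξ E ^ i)) (l : ℕ)
    (hl : l < D.rk E) (hlN : l ≤ N) : a l ∈ I X (N - l) := by
  have hdim := hD.proj.dim E hr
  have hξn := pow_deg hC (L_deg hC hD (hD.proj.xi_mem E hr))
  have hF := hD.proj.formula E hr
  have hadeg : ∀ i ≤ N, C.Deg ((N - i : ℕ) : ℤ) (a i) := by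
    intro i hi
    have := ha i
    rwa [← Nat.cast_sub hi] at this
  have hazero : ∀ i, N < i → a i = 0 := fun i hi => hC.gr_neg (ha i) (by omega)
  have key : ∀ m, ∀ l, l < D.rk E → l ≤ N → D.rk E - 1 - l = m → a l ∈ I X (N - l) := by
    intro m
    induction m using Nat.strong_induction_on with
    | _ m ih =>
    intro l hl hlN hm
    have h1 := hI.push (D.q E) (j := N - l) (by omega) (hI.mul hy (hξn (D.rk E - 1 - l)))
    have h2 : C.down (D.q E) (C.mul y (D.ξ E ^ (D.rk E - 1 - l))) =
        ∑ i ∈ range (D.rk E), a i * C.push (D.q E) (D.ξ E ^ (i + (D.rk E - 1 - l))) := by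
      show C.push (D.q E) (y * D.ξ E ^ (D.rk E - 1 - l)) = _
      rw [hya, Finset.sum_mul, map_sum]
      apply Finset.sum_congr rfl
      intro i _
      show C.push (D.q E) (C.pull (D.q E) (a i) * D.ξ E ^ i * D.ξ E ^ (D.rk E - 1 - l)) = _
      rw [mul_assoc, ← pow_add]
      rcases Nat.lt_or_ge N i with hi | hi
      · rw [hazero i hi, map_zero, zero_mul, zero_mul, map_zero]
      · exact push_pull hC (D.q E) (hξn _) (hadeg i hi)
    rw [h2, ← Finset.add_sum_erase _ _ (Finset.mem_range.2 hl),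
      show l + (D.rk E - 1 - l) = D.rk E - 1 by omega, hF.top, mul_one] at h1
    refine (Submodule.add_mem_iff_left _ ?_).1 h1
    apply Submodule.sum_mem
    intro i hi
    rw [Finset.mem_erase, Finset.mem_range] at hi
    rcases Nat.lt_or_ge i l with hil | hil
    · rw [hF.low _ (by omega), mul_zero]
      exact Submodule.zero_mem _
    · rcases Nat.lt_or_ge N i with hi2 | hi2
      · rw [hazero i hi2, zero_mul]
        exact Submodule.zero_mem _
      · have h3 := ih (D.rk E - 1 - i) (by omega) i hi.2 hi2 rfl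
        have h4 := hC.push_mem (D.q E) (i := i + (D.rk E - 1 - l)) (j := i - l) (by omega)
          (hξn (i + (D.rk E - 1 - l)))
        exact IsAdequate.cast (hI.mul h3 h4) (by omega)
  exact key _ l hl hlN rfl

/-- If `I`-equivalence to zero implies `J`-equivalence to zero on `X` then so on `P(E)`. -/
theorem implies_proj {I J : Family C} (hI : IsAdequate I) (hJ : IsAdequate J) (X : 𝒱.Obj)
    (h : ∀ i, ∀ x ∈ I X i, x ∈ J X i) (E : D.B X) (hr : 1 ≤ D.rk E) (i : ℕ) :
    ∀ y ∈ I (D.P E) i, y ∈ J (D.P E) i := by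
  intro y hy
  obtain ⟨a, ha, hya⟩ := hD.proj.gen E hr i y (hI.le _ _ hy)
  have hξn := pow_deg hC (L_deg hC hD (hD.proj.xi_mem E hr))
  have h1 := coeff_mem hC hD hI E hr hy ha hya
  rw [hya]
  apply Submodule.sum_mem
  intro l hl
  rw [Finset.mem_range] at hl
  rcases Nat.lt_or_ge i l with hil | hil
  · have h2 : a l = 0 := hC.gr_neg (ha l) (by omega)
    show C.pull (D.q E) (a l) * _ ∈ _
    rw [h2, map_zero, zero_mul]
    exact Submodule.zero_mem _
  · exact IsAdequate.cast (hJ.mul (hJ.pull (D.q E) (h _ _ (h1 l hl hil))) (hξn l)) (by omega)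

/-- **Adequate equivalence relations on one variety and the canonical classes of the projective
bundles.** -/
theorem canonical_local {can : ∀ X : 𝒱.Obj, C.A X} (hcan : IsCanonical D can) {I J : Family C}
    (hI : IsAdequate I) (hJ : IsAdequate J) (X : 𝒱.Obj)
    (h01 : ∀ i ≤ 1, ∀ x ∈ I X i, x ∈ J X i) :
    List.TFAE [∀ i, ∀ x ∈ I X i, x ∈ J X i, ImpliesForBundles D I J X,
      ∀ E : D.B X, 1 ≤ D.rk E → ∀ i, ∀ y ∈ I (D.P E) i, y ∈ J (D.P E) i,
      ImpliesForAnti D can I J X] := by
  have h := local_tfae hC hD hI hJ X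
  have e1 : (∀ i, ∀ x ∈ I X i, x ∈ J X i) ↔ Implies I J X := by
    constructor
    · intro h i _
      exact h i
    · intro h i
      rcases Nat.lt_or_ge i 1 with hi | hi
      · exact h01 i hi.le
      · exact h i hi
  tfae_have 1 ↔ 2 := e1.trans (h.out 0 1)
  tfae_have 1 → 3 := fun h E hr => implies_proj hC hD hI hJ X h E hr
  tfae_have 3 → 4 := fun h E hr _ hx => h E hr _ _ hx
  tfae_have 4 → 1 := by
    intro h i
    rcases Nat.lt_or_ge i 2 with hi | hi
    · exact h01 i (by omega)
    · exact can_step hC hD hcan hI hJ X h i hi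
  tfae_finish

end

end Pool.Agent.Y101.Aq
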