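import Pool.Agent.Y101.Aq.Defs
import Mathlib

/-!
# Adequate equivalence relations and vector bundles: algebra
-/

open CategoryTheory AlgebraicGeometry Finset

universe u v w

namespace Pool.Agent.Y101.Aq

open Pool.Agent.H914 Pool.Agent.H914.VarClass Pool.Agent.H914.VarClass.Obj Pool.Agent.W492.BB

variable {k : Type u} [Field k] {𝒱 : VarClass k} {C : TheoryData.{u, v, 0} 𝒱 ℚ}

lemma IsAdequate.cast {I : Family C} {X : 𝒱.Obj} {i j : ℕ} {a : C.A X} (h : a ∈ I X i)
    (hij : i = j) : a ∈ I X j := hij ▸ h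

lemma deg_cast {X : 𝒱.Obj} {i j : ℕ} {a : C.A X} (h : C.Deg i a) (hij : i = j) : C.Deg j a :=
  hij ▸ h

section

variable (hC : IsBasic C)
include hC

lemma pow_deg {X : 𝒱.Obj} {a : C.A X} (ha : C.Deg (1 : ℕ) a) (n : ℕ) : C.Deg n (a ^ n) := by
  induction n with
  | zero => rw [pow_zero]; exact hC.one_mem X
  | succ n ih =>
    rw [pow_succ]
    exact hC.mul_mem ih ha

lemma IsAdequate.mul_left {I : Family C} (hI : IsAdequate I) {X : 𝒱.Obj} {i j : ℕ}
    {a b : C.A X} (ha : C.Deg i a) (hb : b ∈ I X j) : a * b ∈ I X (i + j) := by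
  rw [hC.comm ha (hI.le X j hb), add_comm]
  exact hI.mul hb ha

/-- Chern classes from the Chern character. -/
lemma c_of_ch {I : Family C} (hI : IsAdequate I) {X : 𝒱.Obj} {c ch : ℕ → C.A X}
    (hN : Newton c ch) (hc : ∀ i : ℕ, C.Deg i (c i)) (h : ∀ i, 1 ≤ i → ch i ∈ I X i) (i : ℕ)
    (hi : 1 ≤ i) : c i ∈ I X i := by
  obtain ⟨i, rfl⟩ : ∃ l, i = l + 1 := ⟨i - 1, by omega⟩
  have h1 : ((i : ℚ) + 1) • c (i + 1) ∈ I X (i + 1) := by
    rw [hN.2 i]
    apply Submodule.sum_mem
    intro j hj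
    rw [Finset.mem_range] at hj
    apply Submodule.smul_mem
    exact IsAdequate.cast (hI.mul (h (j + 1) (by omega)) (hc (i - j))) (by omega)
  have h2 : ((i : ℚ) + 1) ≠ 0 := Nat.cast_add_one_ne_zero i
  have h3 := Submodule.smul_mem _ ((i : ℚ) + 1)⁻¹ h1
  rwa [smul_smul, inv_mul_cancel₀ h2, one_smul] at h3

/-- The Chern character from the Chern classes. -/
lemma ch_of_c {I : Family C} (hI : IsAdequate I) {X : 𝒱.Obj} {c ch : ℕ → C.A X}
    (hN : Newton c ch) (hch : ∀ i : ℕ, C.Deg i (ch i)) (h : ∀ i, 1 ≤ i → c i ∈ I X i) (i : ℕ)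
    (hi : 1 ≤ i) : ch i ∈ I X i := by
  obtain ⟨i, rfl⟩ : ∃ l, i = l + 1 := ⟨i - 1, by omega⟩
  have h1 := hN.2 i
  rw [Finset.sum_range_succ, Nat.sub_self, hN.1, mul_one] at h1
  have h2 : ((-1) ^ i * ((i + 1).factorial : ℚ)) • ch (i + 1) ∈ I X (i + 1) := by
    rw [← sub_eq_iff_eq_add'.2 h1]
    apply Submodule.sub_mem
    · exact Submodule.smul_mem _ _ (h (i + 1) (by omega))
    · apply Submodule.sum_mem
      intro j hj
      rw [Finset.mem_range] at hj
      apply Submodule.smul_mem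
      exact IsAdequate.cast (IsAdequate.mul_left hC hI (hch (j + 1)) (h (i - j) (by omega))) (by omega)
  have h3 : ((-1) ^ i * ((i + 1).factorial : ℚ)) ≠ 0 :=
    mul_ne_zero (pow_ne_zero _ (by norm_num)) (Nat.cast_ne_zero.2 (Nat.factorial_ne_zero _))
  have h4 := Submodule.smul_mem _ ((-1) ^ i * ((i + 1).factorial : ℚ))⁻¹ h2
  rwa [smul_smul, inv_mul_cancel₀ h3, one_smul] at h4

/-- The push-forward of `q^* b · x`. -/
lemma push_pull {X Y : 𝒱.Obj} (f : X ⟶ Y) {i j : ℕ} {a : C.A X} {b : C.A Y} (ha : C.Deg i a)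
    (hb : C.Deg j b) : C.push f (C.pull f b * a) = b * C.push f a := hC.proj f ha hb

/-- The class `ξ ^ r` and the Chern classes. -/
theorem xi_iff {I : Family C} (hI : IsAdequate I) {X T : 𝒱.Obj} {q : T ⟶ X} {c : ℕ → C.A X}
    {ξ : C.A T} {r : ℕ} (hr : 1 ≤ r) (hdim : T.dim + 1 = X.dim + r) (hξ : C.Deg (1 : ℕ) ξ)
    (hc : ∀ i : ℕ, C.Deg i (c i)) (hc0 : c 0 = 1)
    (hP : ProjFormula (C.pull q) (C.push q) c ξ r) :
    ξ ^ r ∈ I T r ↔ ∀ i, 1 ≤ i → i ≤ r → c i ∈ I X i := by
  have hξn := pow_deg hC hξ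
  constructor
  · intro h i hi hir
    induction i using Nat.strong_induction_on with
    | _ i ih =>
    have h1 : ∑ m ∈ range (r + 1), (-1 : ℚ) ^ m • (c m * C.push q (ξ ^ (r - m + (i - 1)))) = 0 := by
      have h2 := congrArg (fun y => C.push q (y * ξ ^ (i - 1))) hP.rel
      simp only [zero_mul, map_zero, Finset.sum_mul, map_sum] at h2
      rw [← h2]
      apply Finset.sum_congr rfl
      intro m _
      rw [smul_mul_assoc, map_smul, mul_assoc, ← pow_add, push_pull hC q (hξn _) (hc m)]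
    rw [← Finset.add_sum_erase _ _ (Finset.mem_range.2 (show i < r + 1 by omega)),
      show r - i + (i - 1) = r - 1 by omega, hP.top, mul_one] at h1
    have h3 : (-1 : ℚ) ^ i • c i ∈ I X i := by
      rw [eq_neg_of_add_eq_zero_left h1]
      apply Submodule.neg_mem
      apply Submodule.sum_mem
      intro m hm
      rw [Finset.mem_erase, Finset.mem_range] at hm
      apply Submodule.smul_mem
      have hdeg : C.Deg ((r - m + (i - 1) : ℕ) : ℤ) (ξ ^ (r - m + (i - 1))) := hξn _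
      rcases Nat.eq_zero_or_pos m with rfl | hm0
      · rw [hc0, one_mul]
        apply hI.push q (i := r + (i - 1)) (by omega)
        rw [Nat.sub_zero, pow_add]
        exact hI.mul h (hξn _)
      · rcases Nat.lt_or_ge m i with hmi | hmi
        · have h4 := hC.push_mem q (i := r - m + (i - 1)) (j := i - m) (by omega) hdeg
          exact IsAdequate.cast (hI.mul (ih m hmi (by omega) (by omega)) h4) (by omega)
        · rw [hP.low _ (by omega), mul_zero]
          exact Submodule.zero_mem _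
    have h4 := Submodule.smul_mem _ ((-1 : ℚ) ^ i) h3
    rwa [smul_smul, ← mul_pow, neg_mul_neg, one_mul, one_pow, one_smul] at h4
  · intro h
    have h1 := hP.rel
    rw [Finset.sum_range_succ', pow_zero, one_smul, hc0, map_one, one_mul, Nat.sub_zero] at h1
    rw [eq_neg_of_add_eq_zero_right h1]
    apply Submodule.neg_mem
    apply Submodule.sum_mem
    intro i hi
    rw [Finset.mem_range] at hi
    apply Submodule.smul_mem
    exact IsAdequate.cast (hI.mul (hI.pull q (h (i + 1) (by omega) (by omega))) (hξn _)) (by omega)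

end

end Pool.Agent.Y101.Aq
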