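import Pool.Agent.Y101.Aq.Defs
import Pool.Agent.TH829.Prime.Defs

/-!
# Numerical equivalence, canonical classes, powers of divisors and Chern classes: definitions
-/

open CategoryTheory AlgebraicGeometry

universe u v w w'

namespace Pool.Agent.Y101.Aq

open Pool.Agent.H914 Pool.Agent.H914.VarClass Pool.Agent.H914.VarClass.Obj Pool.Agent.W492.BB
  Pool.Agent.TH133 Pool.Agent.TH829.Prime

variable {k : Type u} [Field k] {𝒱 : VarClass k} {C : TheoryData.{u, v, 0} 𝒱 ℚ}
  {K : Type w} [Field K]

/-- The conjecture D for `X`: the numerically trivial classes on `X` are homologically trivial. -/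
def StandardD (H : WeilTheoryData.{u, v, w} C K) (X : 𝒱.Obj) : Prop :=
  ∀ (i : ℤ) (x : C.A X), C.Deg i x → NumTrivial C i x → H.cl x = 0

/-- The conjecture D for the powers of the canonical class: if `(can X) ^ n`, `n ≥ 1`, is numerically
trivial then it is homologically trivial. -/
def CanonicalPowerD (can : ∀ X : 𝒱.Obj, C.A X) (H : WeilTheoryData.{u, v, w} C K)
    (X : 𝒱.Obj) : Prop :=
  ∀ n : ℕ, 1 ≤ n → NumTrivial C n (can X ^ n) → H.cl (can X ^ n) = 0

/-- The conjecture D for the canonical classes of certain projective bundles over `X`: if `E` is a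
vector bundle of rank `r ≥ 1` on `X` with `c_1(E) = - can X`, and the `(r + 1)`-st power of the
canonical class of `P(E)` is numerically trivial, then it is homologically trivial. -/
def AnticanonicalD (D : BundleData.{u, v, w'} C) (can : ∀ X : 𝒱.Obj, C.A X)
    (H : WeilTheoryData.{u, v, w} C K) (X : 𝒱.Obj) : Prop :=
  ∀ E : D.B X, 1 ≤ D.rk E → can X + D.c E 1 = 0 →
    NumTrivial C (D.rk E + 1 : ℕ) (can (D.P E) ^ (D.rk E + 1)) →
      H.cl (can (D.P E) ^ (D.rk E + 1)) = 0

/-- The conjecture D for the powers of divisors in the middle codimension: if `dim X = 2 n`, `n ≥ 1`,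
and `v ^ n` is numerically trivial for a divisor `v` on `X`, then `v ^ n` is homologically
trivial. -/
def MiddlePowerD (D : BundleData.{u, v, w'} C) (H : WeilTheoryData.{u, v, w} C K) (X : 𝒱.Obj) :
    Prop :=
  ∀ n : ℕ, 1 ≤ n → X.dim = 2 * n → ∀ v ∈ D.L X, NumTrivial C n (v ^ n) → H.cl (v ^ n) = 0

/-- The conjecture D for the Chern classes of vector bundles: if the Chern classes `c_i(E)`, `i ≥ 1`,
of a vector bundle `E` on `X` are numerically trivial then they are homologically trivial. -/
def BundleD (D : BundleData.{u, v, w'} C) (H : WeilTheoryData.{u, v, w} C K) (X : 𝒱.Obj) :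
    Prop :=
  ∀ E : D.B X, (∀ i : ℕ, 1 ≤ i → NumTrivial C i (D.c E i)) →
    ∀ i : ℕ, 1 ≤ i → H.cl (D.c E i) = 0

/-- The conjecture D for the powers of the relative canonical classes: if `E` is a vector bundle of
rank `r ≥ 1` on `X` and the `r`-th power of the relative canonical class `c_1(E) - r ξ` of `P(E)`
is numerically trivial, then it is homologically trivial. -/
def RelCanonicalD (D : BundleData.{u, v, w'} C) (H : WeilTheoryData.{u, v, w} C K)
    (X : 𝒱.Obj) : Prop :=
  ∀ E : D.B X, 1 ≤ D.rk E → NumTrivial C (D.rk E) (relCan D E ^ D.rk E) →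
    H.cl (relCan D E ^ D.rk E) = 0

/-- Matsusaka's theorem for `X`: the numerically trivial divisor classes are homologically
trivial. -/
def Matsusaka (H : WeilTheoryData.{u, v, w} C K) (X : 𝒱.Obj) : Prop :=
  ∀ x : C.A X, C.Deg 1 x → NumTrivial C 1 x → H.cl x = 0

end Pool.Agent.Y101.Aq
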