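import Pool.Agent.Y101.Aq.Rel
import Pool.Agent.Y101.Aq.CanL
import Pool.Agent.Y101.Aq.DDefs

/-!
# The conjecture D and the powers of the canonical classes
-/

open CategoryTheory AlgebraicGeometry Finset

universe u v w w'

namespace Pool.Agent.Y101.Aq

open Pool.Agent.H914 Pool.Agent.H914.VarClass Pool.Agent.H914.VarClass.Obj Pool.Agent.W492.BB
  Pool.Agent.TH133 Pool.Agent.TH829.Prime

variable {k : Type u} [Field k] {𝒱 : VarClass k} {C : TheoryData.{u, v, 0} 𝒱 ℚ}
  {K : Type w} [Field K] {H : WeilTheoryData.{u, v, w} C K} {D : BundleData.{u, v, w'} C}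

lemma mem_restr_num {X : 𝒱.Obj} {i : ℕ} {x : C.A X} (hx : C.Deg i x) :
    x ∈ restr (numFam C) X i ↔ NumTrivial C i x := by
  show x ∈ numFam C X i ↔ _
  rw [mem_numFam]
  exact and_iff_right hx

lemma mem_hom {X : 𝒱.Obj} {i : ℕ} {x : C.A X} (hx : C.Deg i x) :
    x ∈ homFam H X i ↔ H.cl x = 0 := by
  show _ ∧ _ ↔ _
  exact and_iff_right hx

section

variable [hC : IsChowProj C] (hD : IsBundleTheory D)

include hC

lemma standardD_iff' (hne : ∀ X : 𝒱.Obj, (1 : C.A X) ≠ 0) (X : 𝒱.Obj) :
    StandardD H X ↔ ∀ i, ∀ x ∈ restr (numFam C) X i, x ∈ homFam H X i := by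
  constructor
  · intro h i x hx
    exact ⟨hx.1, h i x hx.1 hx.2⟩
  · intro h i x hx hnum
    rcases le_or_gt i 0 with hi | hi
    · rw [zero_of_numTrivial (hne X) hi hx hnum, map_zero]
    · obtain ⟨n, rfl⟩ := Int.eq_ofNat_of_zero_le hi.le
      exact (h n x ⟨hx, hnum⟩).2

lemma standardD_iff (hne : ∀ X : 𝒱.Obj, (1 : C.A X) ≠ 0) (X : 𝒱.Obj) :
    StandardD H X ↔ Implies (restr (numFam C)) (homFam H) X := by
  rw [standardD_iff' hne]
  constructor
  · intro h i _
    exact h i
  · intro h i x hx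
    rcases Nat.eq_zero_or_pos i with rfl | hi
    · rw [zero_of_numTrivial (hne X) le_rfl hx.1 hx.2]
      exact Submodule.zero_mem _
    · exact h i hi x hx

include hD

lemma vpow_deg {X : 𝒱.Obj} {v : C.A X} (hv : v ∈ D.L X) (n : ℕ) : C.Deg n (v ^ n) :=
  pow_deg (isBasic hC) (L_deg (isBasic hC) hD hv) n

omit hC in
lemma bundleD_iff (X : 𝒱.Obj) :
    BundleD D H X ↔ ImpliesForBundles D (restr (numFam C)) (homFam H) X := by
  refine forall_congr' fun E => ?_
  refine imp_congr ?_ ?_
  · refine forall_congr' fun i => forall_congr' fun _ => ?_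
    exact (mem_restr_num (hD.chern.c_mem E i)).symm
  · refine forall_congr' fun i => forall_congr' fun _ => ?_
    exact (mem_hom (hD.chern.c_mem E i)).symm

lemma middlePowerD_iff (X : 𝒱.Obj) :
    MiddlePowerD D H X ↔ ImpliesInMiddle D (restr (numFam C)) (homFam H) X := by
  constructor
  · intro h v hv n hn hdim hvn
    exact (mem_hom (vpow_deg hD hv n)).2 (h n hn hdim v hv ((mem_restr_num (vpow_deg hD hv n)).1 hvn))
  · intro h n hn hdim v hv hvn
    exact (mem_hom (vpow_deg hD hv n)).1 (h v hv n hn hdim ((mem_restr_num (vpow_deg hD hv n)).2 hvn))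

lemma canonicalPowerD_iff {can : ∀ X : 𝒱.Obj, C.A X} (hcan : IsCanonical D can) (X : 𝒱.Obj) :
    CanonicalPowerD can H X ↔ ImpliesForCan can (restr (numFam C)) (homFam H) X := by
  refine forall_congr' fun n => forall_congr' fun _ => ?_
  have h := vpow_deg hD (hcan.mem X) n
  exact imp_congr (mem_restr_num h).symm (mem_hom h).symm

lemma relCan_deg {X : 𝒱.Obj} (E : D.B X) (hr : 1 ≤ D.rk E) : C.Deg (1 : ℕ) (relCan D E) := by
  have hB := isBasic hC
  refine Submodule.sub_mem _ ?_ (Submodule.smul_mem _ _ ?_)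
  · exact hB.pull_mem (D.q E) (hD.chern.c_mem E 1)
  · exact L_deg hB hD (hD.proj.xi_mem E hr)

lemma relCanonicalD_iff {X : 𝒱.Obj} (hM : Matsusaka H X) :
    RelCanonicalD D H X ↔ ImpliesForCanonical D (restr (numFam C)) (homFam H) X := by
  have hB := isBasic hC
  have e : RelCanonicalD D H X ↔ ∀ E : D.B X, 1 ≤ D.rk E →
      relCan D E ^ D.rk E ∈ restr (numFam C) (D.P E) (D.rk E) →
        relCan D E ^ D.rk E ∈ homFam H (D.P E) (D.rk E) := by
    refine forall_congr' fun E => forall_congr' fun hr => ?_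
    have h := pow_deg hB (relCan_deg hD E hr) (D.rk E)
    exact imp_congr (mem_restr_num h).symm (mem_hom h).symm
  rw [e]
  constructor
  · intro h
    exact ⟨fun x hx => ⟨hx.1, hM x hx.1 hx.2⟩, h⟩
  · intro h
    exact h.2

/-- **The conjecture D for all varieties and the powers of the canonical classes of the rational
varieties.** -/
theorem d_global (hne : ∀ X : 𝒱.Obj, (1 : C.A X) ≠ 0) (hH : H.IsClassMap)
    {can : ∀ X : 𝒱.Obj, C.A X} (hcan : IsCanonical D can) {R : 𝒱.Obj → Prop}
    (hR : IsRationalClass D R) :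
    List.TFAE [∀ X, StandardD H X, ∀ X, R X → CanonicalPowerD can H X,
      ∀ X, R X → MiddlePowerD D H X, ∀ X, R X → BundleD D H X] := by
  have hI := restr_adequate (isAdequate_numFam (C := C) hne)
  have hJ := homFam_adequate hC hH
  have h := canonical_global (isBasic hC) hD hcan hR hI hJ
  simp only [standardD_iff hne, bundleD_iff hD, middlePowerD_iff hD, canonicalPowerD_iff hD hcan]
  tfae_have 1 ↔ 2 := h.out 0 3
  tfae_have 1 ↔ 3 := h.out 0 2
  tfae_have 1 ↔ 4 := h.out 0 1
  tfae_finish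

/-- **The conjecture D for one variety and the canonical classes of the projective bundles.** -/
theorem d_local (hne : ∀ X : 𝒱.Obj, (1 : C.A X) ≠ 0) (hH : H.IsClassMap)
    {can : ∀ X : 𝒱.Obj, C.A X} (hcan : IsCanonical D can) (X : 𝒱.Obj) (hM : Matsusaka H X) :
    List.TFAE [StandardD H X, AnticanonicalD D can H X, RelCanonicalD D H X, BundleD D H X,
      ∀ E : D.B X, 1 ≤ D.rk E → StandardD H (D.P E)] := by
  have hI := restr_adequate (isAdequate_numFam (C := C) hne)
  have hJ := homFam_adequate hC hH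
  have h01 : ∀ i ≤ 1, ∀ x ∈ restr (numFam C) X i, x ∈ homFam H X i := by
    intro i hi x hx
    rcases Nat.eq_zero_or_pos i with rfl | hi0
    · rw [zero_of_numTrivial (hne X) le_rfl hx.1 hx.2]
      exact Submodule.zero_mem _
    · obtain rfl : i = 1 := by omega
      exact ⟨hx.1, hM x hx.1 hx.2⟩
  have h := canonical_local (isBasic hC) hD hcan hI hJ X h01
  have h' := local_tfae (isBasic hC) hD hI hJ X
  have e1 : StandardD H X ↔ AnticanonicalD D can H X := by
    have e : AnticanonicalD D can H X ↔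
        ImpliesForAnti D can (restr (numFam C)) (homFam H) X := by
      refine forall_congr' fun E => forall_congr' fun _ => forall_congr' fun _ => ?_
      have h := vpow_deg hD (hcan.mem (D.P E)) (D.rk E + 1)
      exact imp_congr (mem_restr_num h).symm (mem_hom h).symm
    rw [standardD_iff' hne, e]
    exact h.out 0 3
  have e2 : StandardD H X ↔ ∀ E : D.B X, 1 ≤ D.rk E → StandardD H (D.P E) := by
    simp only [standardD_iff' hne]
    exact h.out 0 2
  have e3 : StandardD H X ↔ BundleD D H X := by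
    rw [standardD_iff' hne, bundleD_iff hD]
    exact h.out 0 1
  have e4 : RelCanonicalD D H X ↔ BundleD D H X := by
    rw [relCanonicalD_iff hD hM, bundleD_iff hD]
    exact h'.out 3 1
  tfae_have 1 ↔ 2 := e1
  tfae_have 1 ↔ 4 := e3
  tfae_have 1 ↔ 5 := e2
  tfae_have 3 ↔ 4 := e4
  tfae_finish

end

lemma one_ne (H : WeilTheoryData.{u, v, w} C K) [hH : IsWeilProj H] (X : 𝒱.Obj) :
    (1 : C.A X) ≠ 0 := by
  intro h
  apply hH.one_ne_zero X
  rw [← map_one H.cl, h, map_zero]

end Pool.Agent.Y101.Aq
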