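import Pool.Agent.W492.BB.Defs

/-!
# Adequate equivalence relations and vector bundles: definitions
-/

open CategoryTheory AlgebraicGeometry Finset

universe u v w

namespace Pool.Agent.Y101.Aq

open Pool.Agent.H914 Pool.Agent.H914.VarClass Pool.Agent.H914.VarClass.Obj Pool.Agent.W492.BB

section Alg

variable {A B : Type*} [Ring A] [Algebra ℚ A] [Ring B] [Algebra ℚ B]

/-- Newton's identities between the Chern classes `c i` and the components `ch i` of the Chern
character: `c_0 = 1` and `(i + 1) c_(i+1) = ∑ (-1) ^ j (j + 1)! ch_(j+1) c_(i-j)`, the sum over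
`0 ≤ j ≤ i`. -/
def Newton (c ch : ℕ → A) : Prop :=
  c 0 = 1 ∧ ∀ i : ℕ, ((i : ℚ) + 1) • c (i + 1) =
    ∑ j ∈ range (i + 1), ((-1) ^ j * ((j + 1).factorial : ℚ)) • (ch (j + 1) * c (i - j))

/-- The component of degree `i` of the Chern character `e ^ l` of the line bundle with first Chern
class `l`. -/
def expS (l : A) (i : ℕ) : A := (i.factorial : ℚ)⁻¹ • l ^ i

/-- The Chern character `ch'` is that of the twist by the line bundle with first Chern class `l`:
`ch'_i = ∑ ch_(i-j) l ^ j / j!`, the sum over `0 ≤ j ≤ i`. -/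
def IsTwist (ch ch' : ℕ → A) (l : A) : Prop :=
  ∀ i : ℕ, ch' i = ∑ j ∈ range (i + 1), (j.factorial : ℚ)⁻¹ • (ch (i - j) * l ^ j)

/-- The formulas for the bundle `P(E)` of the projective spaces of the quotients of rank one of a
vector bundle `E` of rank `r` with the Chern classes `c i`; here `q` and `q'` are the pull-back and the
push-forward for the projection and `ξ` is the first Chern class of `O(1)`:

* `∑ (-1) ^ i c_i ξ ^ (r - i) = 0`, the sum over `0 ≤ i ≤ r`;
* the push-forward of `ξ ^ (r - 1)` is `1`, and that of the lower powers is zero. -/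
structure ProjFormula (q : A →ₐ[ℚ] B) (q' : B →ₗ[ℚ] A) (c : ℕ → A) (ξ : B) (r : ℕ) : Prop where
  rel : ∑ i ∈ range (r + 1), (-1 : ℚ) ^ i • (q (c i) * ξ ^ (r - i)) = 0
  top : q' (ξ ^ (r - 1)) = 1
  low : ∀ i, i + 1 < r → q' (ξ ^ i) = 0

/-- The formulas for a blow-up, with `j`, `j'` the pull-back and the push-forward for the inclusion of
the exceptional divisor, `ζ` the restriction of its class, and `g'` the push-forward to the centre, of
codimension `c + 1`: the self-intersection formula `j^* j_* y = ζ y`, and `g_* ζ ^ c = (-1) ^ c`. -/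
structure BlowFormula {H : Type*} [Ring H] [Algebra ℚ H] (j : H →ₐ[ℚ] B) (j' : B →ₗ[ℚ] H)
    (g' : B →ₗ[ℚ] A) (ζ : B) (c : ℕ) : Prop where
  self : ∀ y, j (j' y) = ζ * y
  top : g' (ζ ^ c) = (-1) ^ c

end Alg

variable {k : Type u} [Field k] {𝒱 : VarClass k}

/-- The data of a theory of vector bundles on the varieties of the class `𝒱`. -/
structure BundleData (C : TheoryData.{u, v, 0} 𝒱 ℚ) where
  /-- the vector bundles on `X` -/
  B : 𝒱.Obj → Type w
  /-- the first Chern classes of the line bundles on `X`, that is, the classes of the divisors -/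
  L : ∀ X, Set (C.A X)
  /-- the rank -/
  rk : ∀ {X}, B X → ℕ
  /-- the component of degree `i` of the Chern character -/
  ch : ∀ {X}, B X → ℕ → C.A X
  /-- the `i`-th Chern class -/
  c : ∀ {X}, B X → ℕ → C.A X
  /-- the projective bundle `P(E)` -/
  P : ∀ {X}, B X → 𝒱.Obj
  /-- its projection to `X` -/
  q : ∀ {X} (E : B X), P E ⟶ X
  /-- the first Chern class of `O(1)` on `P(E)` -/
  ξ : ∀ {X} (E : B X), C.A (P E)

variable {C : TheoryData.{u, v, 0} 𝒱 ℚ}

/-- The ranks, Chern classes and Chern characters: degrees and Newton's identities. -/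
structure HasChern (D : BundleData.{u, v, w} C) : Prop where
  L_mem : ∀ {X}, ∀ l ∈ D.L X, C.Deg 1 l ∧ -l ∈ D.L X
  L_add : ∀ {X}, ∀ l ∈ D.L X, ∀ l' ∈ D.L X, l + l' ∈ D.L X
  ch_mem : ∀ {X} (E : D.B X) (i : ℕ), C.Deg i (D.ch E i)
  c_mem : ∀ {X} (E : D.B X) (i : ℕ), C.Deg i (D.c E i)
  rank : ∀ {X} (E : D.B X), D.ch E 0 = (D.rk E : ℚ) • (1 : C.A X)
  c_top : ∀ {X} (E : D.B X) (i : ℕ), D.rk E < i → D.c E i = 0
  newton : ∀ {X} (E : D.B X), Newton (D.c E) (D.ch E)

/-- The operations with vector bundles: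

* trivial bundles, direct sums, twists by line bundles;
* for each class `x` of positive codimension a multiple of `x` is the difference of the Chern
  characters of two bundles (the Chern character is an isomorphism from the K-group to the Chow group
  with rational coefficients);
* there is a very ample divisor `l`: the line bundle `O(-l)` is a subbundle of a trivial bundle, with
  quotient `G`, and each vector bundle `F` is a subbundle of a sum of copies of the line bundle
  `O(m l)` for some `m`, with quotient `G`. -/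
structure HasOperations (D : BundleData.{u, v, w} C) : Prop where
  triv : ∀ (X : 𝒱.Obj) (m : ℕ), ∃ E : D.B X, D.rk E = m ∧ ∀ i ≥ 1, D.ch E i = 0
  sum : ∀ {X} (E F : D.B X), ∃ G : D.B X, D.rk G = D.rk E + D.rk F ∧
    ∀ i, D.ch G i = D.ch E i + D.ch F i
  twist : ∀ {X} (E : D.B X), ∀ l ∈ D.L X, ∃ G : D.B X, D.rk G = D.rk E ∧
    IsTwist (D.ch E) (D.ch G) l
  chern : ∀ {X} (i : ℕ) (x : C.A X), 1 ≤ i → C.Deg i x → ∃ (E F : D.B X) (n : ℕ), 1 ≤ n ∧
    D.rk E = D.rk F ∧ ∀ j, D.ch E j = D.ch F j + if j = i then (n : ℚ) • x else 0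
  ample : ∀ X : 𝒱.Obj, ∃ l ∈ D.L X, (∃ G : D.B X, ∀ i ≥ 1, D.ch G i = -expS (-l) i) ∧
    ∀ F : D.B X, ∃ (G : D.B X) (m : ℕ), ∀ i,
      D.ch F i + D.ch G i = ((D.rk F : ℚ) + D.rk G) • expS ((m : ℚ) • l) i

/-- The projective bundles of the vector bundles of positive rank. -/
structure HasProjBundles (D : BundleData.{u, v, w} C) : Prop where
  dim : ∀ {X} (E : D.B X), 1 ≤ D.rk E → (D.P E).dim + 1 = X.dim + D.rk E
  xi_mem : ∀ {X} (E : D.B X), 1 ≤ D.rk E → D.ξ E ∈ D.L (D.P E)
  pull_mem : ∀ {X} (E : D.B X), 1 ≤ D.rk E → ∀ l ∈ D.L X, C.up (D.q E) l ∈ D.L (D.P E)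
  formula : ∀ {X} (E : D.B X), 1 ≤ D.rk E →
    ProjFormula (C.pull (D.q E)) (C.push (D.q E)) (D.c E) (D.ξ E) (D.rk E)
  gen : ∀ {X} (E : D.B X), 1 ≤ D.rk E → ∀ (n : ℕ) (y : C.A (D.P E)), C.Deg n y →
    ∃ a : ℕ → C.A X, (∀ i : ℕ, C.Deg ((n : ℤ) - i) (a i)) ∧
      y = ∑ i ∈ range (D.rk E), C.mul (C.up (D.q E) (a i)) (D.ξ E ^ i)

/-- `D` has the usual properties of the vector bundles on smooth projective varieties. -/
structure IsBundleTheory (D : BundleData.{u, v, w} C) : Prop where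
  chern : HasChern D
  operations : HasOperations D
  proj : HasProjBundles D

/-- A family of subspaces `I X i` of `A^i(X)`. -/
abbrev Family (C : TheoryData.{u, v, 0} 𝒱 ℚ) := ∀ X : 𝒱.Obj, ℕ → Submodule ℚ (C.A X)

/-- The classes in `I X i` are the classes in `A^i(X)` equivalent to zero for an adequate
equivalence relation: `I` is stable under products with all classes, pull-backs and push-forwards. -/
structure IsAdequate (I : Family C) : Prop where
  le : ∀ X i, I X i ≤ C.gr X i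
  mul : ∀ {X} {i j : ℕ} {a b : C.A X}, a ∈ I X i → C.Deg j b → C.mul a b ∈ I X (i + j)
  pull : ∀ {X Y} (f : X ⟶ Y) {i : ℕ} {a : C.A Y}, a ∈ I Y i → C.up f a ∈ I X i
  push : ∀ {X Y} (f : X ⟶ Y) {i j : ℕ} {a : C.A X}, i + Y.dim = j + X.dim → a ∈ I X i →
    C.down f a ∈ I Y j

/-- The formal properties of the theory `C` which are used: products, pull-backs and push-forwards
of homogeneous classes, commutativity, the projection formula, and the vanishing of the classes of
negative codimension and of codimension greater than the dimension. -/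
structure IsBasic (C : TheoryData.{u, v, 0} 𝒱 ℚ) : Prop where
  gr_top : ∀ {X : 𝒱.Obj} {i : ℕ} {a : C.A X}, C.Deg i a → X.dim < i → a = 0
  gr_neg : ∀ {X : 𝒱.Obj} {i : ℤ} {a : C.A X}, C.Deg i a → i < 0 → a = 0
  one_mem : ∀ X : 𝒱.Obj, C.Deg (X := X) 0 1
  mul_mem : ∀ {X} {i j : ℕ} {a b : C.A X}, C.Deg i a → C.Deg j b → C.Deg ((i + j : ℕ) : ℤ) (a * b)
  comm : ∀ {X} {i j : ℕ} {a b : C.A X}, C.Deg i a → C.Deg j b → a * b = b * a
  pull_mem : ∀ {X Y} (f : X ⟶ Y) {i : ℕ} {a : C.A Y}, C.Deg i a → C.Deg i (C.pull f a)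
  push_mem : ∀ {X Y} (f : X ⟶ Y) {i j : ℕ} {a : C.A X}, i + Y.dim = j + X.dim → C.Deg i a →
    C.Deg j (C.push f a)
  proj : ∀ {X Y} (f : X ⟶ Y) {i j : ℕ} {a : C.A X} {b : C.A Y}, C.Deg i a → C.Deg j b →
    C.push f (C.pull f b * a) = b * C.push f a

/-- The relative canonical class `c_1(E) - rk(E) ξ` of the projective bundle `P(E)`. -/
noncomputable def relCan (D : BundleData.{u, v, w} C) {X : 𝒱.Obj} (E : D.B X) : C.A (D.P E) :=
  C.up (D.q E) (D.c E 1) - (D.rk E : ℚ) • D.ξ E

/-- `can X` is the canonical class of `X`, the class of a divisor, and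
`can P(E) = q^* (can X + c_1(E)) - rk(E) ξ`. -/
structure IsCanonical (D : BundleData.{u, v, w} C) (can : ∀ X : 𝒱.Obj, C.A X) : Prop where
  mem : ∀ X, can X ∈ D.L X
  proj : ∀ {X} (E : D.B X), 1 ≤ D.rk E →
    can (D.P E) = C.up (D.q E) (can X + D.c E 1) - (D.rk E : ℚ) • D.ξ E

/-- `V` looks like the centre, of codimension `c + 1 ≥ 2`, of a blow-up `T` with the exceptional
divisor `j : F ⟶ T` over `g : F ⟶ V`, and `ζ` is the restriction to `F` of the class of `F`. -/
structure IsCentre (C : TheoryData.{u, v, 0} 𝒱 ℚ) {V T F : 𝒱.Obj} (j : F ⟶ T) (g : F ⟶ V)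
    (ζ : C.A F) (c : ℕ) : Prop where
  pos : 1 ≤ c
  dimT : T.dim = F.dim + 1
  dimF : F.dim = V.dim + c
  deg : C.Deg 1 ζ
  formula : BlowFormula (C.pull j) (C.push j) (C.push g) ζ c

/-- The properties of the class `R` of rational varieties which are used: `P(E)` is rational for each
vector bundle `E` on a rational variety, and each variety `V` is the centre of a blow-up `T` which
is rational (embed `V` in a projective space). -/
structure IsRationalClass (D : BundleData.{u, v, w} C) (R : 𝒱.Obj → Prop) : Prop where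
  proj : ∀ X, R X → ∀ E : D.B X, 1 ≤ D.rk E → R (D.P E)
  centre : ∀ V : 𝒱.Obj, ∃ (T F : 𝒱.Obj) (j : F ⟶ T) (g : F ⟶ V) (ζ : C.A F) (c : ℕ), R T ∧
    IsCentre C j g ζ c

/-- On `X`, in positive codimensions, `I`-equivalence to zero implies `J`-equivalence to zero. -/
def Implies (I J : Family C) (X : 𝒱.Obj) : Prop := ∀ i ≥ 1, ∀ x ∈ I X i, x ∈ J X i

/-- The same for the powers `v ^ n`, `n ≥ 1`, of the divisors `v` on `X`. -/
def ImpliesForPowers (D : BundleData.{u, v, w} C) (I J : Family C) (X : 𝒱.Obj) : Prop :=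
  ∀ v ∈ D.L X, ∀ n ≥ 1, v ^ n ∈ I X n → v ^ n ∈ J X n

/-- The same if the dimension of `X` is `2 n`. -/
def ImpliesInMiddle (D : BundleData.{u, v, w} C) (I J : Family C) (X : 𝒱.Obj) : Prop :=
  ∀ v ∈ D.L X, ∀ n ≥ 1, X.dim = 2 * n → v ^ n ∈ I X n → v ^ n ∈ J X n

/-- If a power `n ≥ 1` of the canonical class of `X` is `I`-equivalent to zero then it is
`J`-equivalent to zero. -/
def ImpliesForCan (can : ∀ X : 𝒱.Obj, C.A X) (I J : Family C) (X : 𝒱.Obj) : Prop :=
  ∀ n ≥ 1, can X ^ n ∈ I X n → can X ^ n ∈ J X n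

/-- The same for the power `r + 1` of the canonical class of `P(E)`, for all vector bundles `E` on `X` of
rank `r ≥ 1` with `c_1(E) = - can X`. -/
def ImpliesForAnti (D : BundleData.{u, v, w} C) (can : ∀ X : 𝒱.Obj, C.A X) (I J : Family C)
    (X : 𝒱.Obj) : Prop :=
  ∀ E : D.B X, 1 ≤ D.rk E → can X + D.c E 1 = 0 →
    can (D.P E) ^ (D.rk E + 1) ∈ I (D.P E) (D.rk E + 1) →
      can (D.P E) ^ (D.rk E + 1) ∈ J (D.P E) (D.rk E + 1)

/-- If the Chern classes `c_i(E)`, `i ≥ 1`, of a vector bundle `E` on `X` are `I`-equivalent to zero then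
they are `J`-equivalent to zero. -/
def ImpliesForBundles (D : BundleData.{u, v, w} C) (I J : Family C) (X : 𝒱.Obj) : Prop :=
  ∀ E : D.B X, (∀ i ≥ 1, D.c E i ∈ I X i) → ∀ i ≥ 1, D.c E i ∈ J X i

/-- For all vector bundles `E` of rank `r ≥ 1` on `X`: if `ξ ^ r` on `P(E)` is `I`-equivalent to zero
then it is `J`-equivalent to zero. -/
def ImpliesForXi (D : BundleData.{u, v, w} C) (I J : Family C) (X : 𝒱.Obj) : Prop :=
  ∀ E : D.B X, 1 ≤ D.rk E → D.ξ E ^ D.rk E ∈ I (D.P E) (D.rk E) →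
    D.ξ E ^ D.rk E ∈ J (D.P E) (D.rk E)

/-- `I`-equivalence to zero implies `J`-equivalence to zero for the classes of codimension one on `X`
and, for all vector bundles `E` of rank `r ≥ 1` on `X`, for the `r`-th power of the relative canonical
class of `P(E)`. -/
def ImpliesForCanonical (D : BundleData.{u, v, w} C) (I J : Family C) (X : 𝒱.Obj) : Prop :=
  (∀ x ∈ I X 1, x ∈ J X 1) ∧ ∀ E : D.B X, 1 ≤ D.rk E →
    relCan D E ^ D.rk E ∈ I (D.P E) (D.rk E) → relCan D E ^ D.rk E ∈ J (D.P E) (D.rk E)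

end Pool.Agent.Y101.Aq
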