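import Pool.Agent.Y101.Aq.Defs
import Pool.Agent.TH133.Defs

/-!
# The generalized Bloch conjecture and the powers of the canonical classes: definitions
-/

open CategoryTheory AlgebraicGeometry Finset

universe u v w w'

namespace Pool.Agent.Y101.Aq

open Pool.Agent.H914 Pool.Agent.H914.VarClass Pool.Agent.H914.VarClass.Obj Pool.Agent.W492.BB
  Pool.Agent.TH133

variable {k : Type u} [Field k] {𝒱 : VarClass k} {C : TheoryData.{u, v, 0} 𝒱 ℚ}

/-- `X` has Hodge coniveau `≥ c`: the Hodge numbers `h^{p,q}(X)` with `p ≠ q` and `min(p,q) < c` are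
zero. -/
def HodgeConiveau (hodge : 𝒱.Obj → ℕ → ℕ → ℕ) (c : ℕ) (X : 𝒱.Obj) : Prop :=
  ∀ p q : ℕ, p ≠ q → min p q < c → hodge X p q = 0

/-- The formula for the Hodge numbers of projective bundles:
`h^{p,q}(P(E)) = ∑ h^{p-t,q-t}(X)`, the sum over `0 ≤ t < rk(E)`, `t ≤ min(p,q)`. -/
def BundleHodge (D : BundleData.{u, v, w} C) (hodge : 𝒱.Obj → ℕ → ℕ → ℕ) : Prop :=
  ∀ {X : 𝒱.Obj} (E : D.B X), 1 ≤ D.rk E → ∀ p q : ℕ,
    hodge (D.P E) p q = ∑ t ∈ range (D.rk E), if t ≤ p ∧ t ≤ q then hodge X (p - t) (q - t) else 0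

/-- The properties of the class `R` of rational varieties which are used: `P(E)` is rational for each
vector bundle `E` on a rational variety, and each variety `V` is the centre, of codimension
`c + 1 ≥ 2`, of a blow-up `T` of a projective space (so `T` is rational), with the Hodge numbers
`h^{p,q}(T) = ∑ h^{p-t,q-t}(V)` for `p ≠ q`, the sum over `1 ≤ t ≤ c`, `t ≤ min(p,q)`. -/
structure IsRationalHodge (D : BundleData.{u, v, w} C) (R : 𝒱.Obj → Prop)
    (hodge : 𝒱.Obj → ℕ → ℕ → ℕ) : Prop where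
  proj : ∀ X, R X → ∀ E : D.B X, 1 ≤ D.rk E → R (D.P E)
  centre : ∀ V : 𝒱.Obj, ∃ (T F : 𝒱.Obj) (j : F ⟶ T) (g : F ⟶ V) (ζ : C.A F) (c : ℕ), R T ∧
    IsCentre C j g ζ c ∧ ∀ p q : ℕ, p ≠ q →
      hodge T p q = ∑ t ∈ Icc 1 c, if t ≤ p ∧ t ≤ q then hodge V (p - t) (q - t) else 0

section

variable {K : Type w'} [Field K] (H : WeilTheoryData.{u, v, w'} C K)

/-- `A_i^{hom}(X) = 0` for `i < c`: the homologically trivial cycle classes of dimension `i < c` are
zero in `CH_i(X)_ℚ`. -/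
def LowCyclesZero (c : ℕ) (X : 𝒱.Obj) : Prop :=
  ∀ i : ℕ, i < c → ∀ x : C.A X, C.Deg ((X.dim : ℤ) - i) x → H.cl x = 0 → x = 0

/-- The same for the powers of the divisors on `X`. -/
def LowPowersZero (D : BundleData.{u, v, w} C) (c : ℕ) (X : 𝒱.Obj) : Prop :=
  ∀ l ∈ D.L X, ∀ i : ℕ, i < c → H.cl (l ^ (X.dim - i)) = 0 → l ^ (X.dim - i) = 0

/-- The same for the powers of the canonical class of `X`. -/
def LowCanonicalZero (can : ∀ X : 𝒱.Obj, C.A X) (c : ℕ) (X : 𝒱.Obj) : Prop :=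
  ∀ i : ℕ, i < c → H.cl (can X ^ (X.dim - i)) = 0 → can X ^ (X.dim - i) = 0

end

end Pool.Agent.Y101.Aq
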