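import Pool.Agent.Y101.Aq.Mid
import Pool.Agent.TH829.Prime.Num

/-!
# Rational, numerical, homological and smash equivalence
-/

open CategoryTheory AlgebraicGeometry Finset

universe u v w

namespace Pool.Agent.Y101.Aq

open Pool.Agent.H914 Pool.Agent.H914.VarClass Pool.Agent.H914.VarClass.Obj Pool.Agent.W492.BB
  Pool.Agent.TH133 Pool.Agent.TH829

variable {k : Type u} [Field k] {𝒱 : VarClass k} {C : TheoryData.{u, v, 0} 𝒱 ℚ}

lemma isBasic (hC : IsChowProj C) : IsBasic C where
  gr_top {X i a} ha hi := hC.gr_top X i a ha (by omega)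
  gr_neg {X i a} ha hi := by
    have h2 := hC.isTheory.isGradedRing.gr_neg X i hi
    have h3 : a ∈ C.gr X i := ha
    rw [h2] at h3
    exact h3
  one_mem X := hC.isTheory.isGradedRing.one_mem X
  mul_mem ha hb := by
    have := hC.isTheory.isGradedRing.mul_mem ha hb
    push_cast
    exact this
  comm {X} _ _ {a b} _ _ := hC.mul_comm a b
  pull_mem {X Y} f {i a} ha := hC.isTheory.hasDegrees.pull_mem f ha
  push_mem {X Y} f {i j a} hij ha := by
    have h := hC.isTheory.hasDegrees.push_mem f ha
    have e : (i : ℤ) + 1 * ((Y.dim : ℤ) - X.dim) = j := by omega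
    rwa [e] at h
  proj {X Y} f {i j a b} _ _ := hC.isTheory.hasProjectionFormula.proj_left f a b

/-- The restriction to the codimensions `i ≥ 0` of a family. -/
def restr (I : Prime.Family C) : Family C := fun X i => I X i

lemma restr_adequate {I : Prime.Family C} (h : Prime.IsAdequate C I) : IsAdequate (restr I) where
  le X i := h.le_gr X i
  mul {X i j a b} ha hb := by
    have := h.mul_mem ha hb
    show C.mul a b ∈ I X ((i + j : ℕ) : ℤ)
    push_cast
    exact this
  pull {X Y} f {i a} ha := h.pull_mem f ha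
  push {X Y} f {i j a} hij ha := by
    have h1 := h.push_mem f ha
    have e : (i : ℤ) + ((Y.dim : ℤ) - X.dim) = j := by omega
    show C.down f a ∈ I Y j
    rwa [e] at h1

section weil

variable {K : Type w} [Field K]

/-- Homological equivalence: the classes of codimension `i` on `X` with zero cohomology class. -/
def homFam (H : WeilTheoryData.{u, v, w} C K) : Family C := fun X i =>
  { carrier := {a | C.Deg i a ∧ H.cl a = 0}
    zero_mem' := ⟨Submodule.zero_mem _, map_zero _⟩
    add_mem' := by
      rintro a b ⟨h1, h2⟩ ⟨h3, h4⟩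
      exact ⟨Submodule.add_mem _ h1 h3, by rw [map_add, h2, h4, add_zero]⟩
    smul_mem' := by
      rintro q a ⟨h1, h2⟩
      refine ⟨Submodule.smul_mem _ q h1, ?_⟩
      rw [← one_mul a, ← smul_mul_assoc, map_mul, h2, mul_zero] }

lemma homFam_adequate (hC : IsChowProj C) {H : WeilTheoryData.{u, v, w} C K} (hH : H.IsClassMap) :
    IsAdequate (homFam H) where
  le X i a ha := ha.1
  mul {X i j a b} ha hb := by
    refine ⟨(isBasic hC).mul_mem ha.1 hb, ?_⟩
    show H.cl (a * b) = 0
    rw [map_mul, ha.2, zero_mul]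
  pull {X Y} f {i a} ha := by
    refine ⟨(isBasic hC).pull_mem f ha.1, ?_⟩
    rw [hH.cl_pull, ha.2]
    exact map_zero _
  push {X Y} f {i j a} hij ha := by
    refine ⟨(isBasic hC).push_mem f hij ha.1, ?_⟩
    rw [hH.cl_push, ha.2]
    exact map_zero _

end weil

/-- A numerically trivial class of codimension `i ≤ 0` is zero. -/
lemma zero_of_numTrivial [hC : IsChowProj C] {X : 𝒱.Obj} (hne : (1 : C.A X) ≠ 0) {i : ℤ}
    (hi : i ≤ 0) {x : C.A X} (hx : C.Deg i x) (h : Prime.NumTrivial C i x) : x = 0 := by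
  rcases hi.lt_or_eq with hi | rfl
  · have h1 := hC.isTheory.isGradedRing.gr_neg X i hi
    have h2 : x ∈ C.gr X i := hx
    rw [h1] at h2
    exact h2
  · obtain ⟨q, rfl⟩ := hC.gr_zero X x hx
    obtain ⟨a, ha, h1, h2⟩ := hC.exists_deg_one X
    have h3 : HasDegree C a 1 := fun Y => by
      rw [one_smul]
      exact ⟨h2 Y, h1 Y⟩
    have h4 := h a (by rw [sub_zero]; exact ha)
    have h5 := Prime.HasDegree.smul q h3
    rw [TheoryData.mul, smul_mul_assoc, one_mul] at h4
    have h6 : q * 1 = 0 := Prime.hasDegree_uniq hne h5 h4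
    rw [mul_one] at h6
    rw [h6, zero_smul]

end Pool.Agent.Y101.Aq
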