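import Pool.Agent.Y101.Aq.Top
import Pool.Agent.Y101.Aq.Rel
import Pool.Agent.Y101.Aq.GDefs

/-!
# The generalized Bloch conjecture and the powers of the canonical classes
-/

open CategoryTheory AlgebraicGeometry Finset

universe u v w w'

namespace Pool.Agent.Y101.Aq

open Pool.Agent.H914 Pool.Agent.H914.VarClass Pool.Agent.H914.VarClass.Obj Pool.Agent.W492.BB
  Pool.Agent.TH133

set_option linter.unusedSectionVars false

variable {k : Type u} [Field k] {𝒱 : VarClass k} {C : TheoryData.{u, v, 0} 𝒱 ℚ}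
  {K : Type w'} [Field K] {D : BundleData.{u, v, w} C} {hodge : 𝒱.Obj → ℕ → ℕ → ℕ}
  {R : 𝒱.Obj → Prop} {can : ∀ X : 𝒱.Obj, C.A X}

lemma coniveau_proj (hh : BundleHodge D hodge) {c : ℕ} {X : 𝒱.Obj} (hX : HodgeConiveau hodge c X)
    (E : D.B X) (hr : 1 ≤ D.rk E) : HodgeConiveau hodge c (D.P E) := by
  intro p q hpq hmin
  rw [hh E hr p q]
  apply Finset.sum_eq_zero
  intro t _
  split_ifs with ht
  · exact hX _ _ (by omega) (by omega)
  · rfl

lemma coniveau_centre {c c' : ℕ} {V T : 𝒱.Obj} (hV : HodgeConiveau hodge c V)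
    (hT : ∀ p q : ℕ, p ≠ q →
      hodge T p q = ∑ t ∈ Icc 1 c', if t ≤ p ∧ t ≤ q then hodge V (p - t) (q - t) else 0) :
    HodgeConiveau hodge (c + 1) T := by
  intro p q hpq hmin
  rw [hT p q hpq]
  apply Finset.sum_eq_zero
  intro t ht
  rw [Finset.mem_Icc] at ht
  split_ifs with ht'
  · exact hV _ _ (by omega) (by omega)
  · rfl

section

variable [hC : IsChowProj C] {H : WeilTheoryData.{u, v, w'} C K} [hH : IsWeilProj H]
include hC hH

lemma zero_of_codim_le {X : 𝒱.Obj} {n : ℤ} (hn : n ≤ 0) {x : C.A X} (hx : C.Deg n x)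
    (hcl : H.cl x = 0) : x = 0 := by
  rcases hn.lt_or_eq with hn | rfl
  · have h1 := hC.isTheory.isGradedRing.gr_neg X n hn
    have h2 : x ∈ C.gr X n := hx
    rw [h1] at h2
    exact h2
  · obtain ⟨q, rfl⟩ := hC.gr_zero X x hx
    by_contra hne
    have hq : q ≠ 0 := by
      rintro rfl
      exact hne (zero_smul _ _)
    apply hH.one_ne_zero X
    have h3 : (1 : C.A X) = q⁻¹ • (q • (1 : C.A X)) := by
      rw [smul_smul, inv_mul_cancel₀ hq, one_smul]
    rw [← map_one H.cl, h3, ← one_mul (q • (1 : C.A X)), ← smul_mul_assoc, map_mul, hcl, mul_zero]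

omit hH in
lemma mem_homFam {X : 𝒱.Obj} {n : ℕ} {x : C.A X} : x ∈ homFam H X n ↔ C.Deg n x ∧ H.cl x = 0 :=
  Iff.rfl

variable (hD : IsBundleTheory D) (hcan : IsCanonical D can)
include hD

/-- On a variety with vanishing low-dimensional homologically trivial cycles, projective bundles have
the same property. -/
lemma low_proj {c : ℕ} {X : 𝒱.Obj} (h : LowCyclesZero H c X) (E : D.B X) (hr : 1 ≤ D.rk E) :
    LowCyclesZero H c (D.P E) := by
  intro i hi y hy hcl
  have hdim := hD.proj.dim E hr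
  rcases le_or_gt (((D.P E).dim : ℤ) - i) 0 with h0 | h0
  · exact zero_of_codim_le h0 hy hcl
  · obtain ⟨N, hN⟩ := Int.eq_ofNat_of_zero_le h0.le
    have hN' : (((D.P E).dim : ℤ) - i) = N := hN
    rw [hN'] at hy
    obtain ⟨a, ha, hya⟩ := hD.proj.gen E hr N y hy
    have hI := homFam_adequate hC hH.isClassMap (H := H)
    have h1 := coeff_mem (isBasic hC) hD hI E hr (N := N) (y := y) ⟨hy, hcl⟩ ha hya
    rw [hya]
    apply Finset.sum_eq_zero
    intro l hl
    rw [Finset.mem_range] at hl
    have h2 : a l = 0 := by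
      rcases Nat.lt_or_ge N l with hNl | hNl
      · exact (isBasic hC).gr_neg (ha l) (by omega)
      · have h3 := h1 l hl hNl
        rcases Nat.lt_or_ge X.dim (N - l) with h4 | h4
        · exact (isBasic hC).gr_top h3.1 h4
        · refine h (X.dim - (N - l)) (by omega) (a l) ?_ h3.2
          have h5 := h3.1
          have e : ((X.dim : ℤ) - ((X.dim - (N - l) : ℕ) : ℤ)) = ((N - l : ℕ) : ℤ) := by
            rw [Nat.cast_sub h4]; ring
          rw [e]
          exact h5
    show C.pull (D.q E) (a l) * _ = 0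
    rw [h2, map_zero, zero_mul]

include hcan

/-- The key step: a homologically trivial class of codimension `n ≥ 2` vanishes if the power
`rk(E) + n - 1` of the canonical class of `P(E)` vanishes as soon as it is homologically trivial. -/
lemma low_step {X : 𝒱.Obj} {n : ℕ} (hn : 2 ≤ n)
    (h : ∀ E : D.B X, 1 ≤ D.rk E → can X + D.c E 1 = 0 →
      H.cl (can (D.P E) ^ (D.rk E + n - 1)) = 0 → can (D.P E) ^ (D.rk E + n - 1) = 0)
    {x : C.A X} (hx : C.Deg n x) (hcl : H.cl x = 0) : x = 0 := by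
  obtain ⟨E, hr, hc1, h1, h2⟩ := can_top (isBasic hC) hD hcan
    (homFam_adequate hC hH.isClassMap (H := H)) (zeroFam_adequate C) X n hn x ⟨hx, hcl⟩
  exact h2 (h E hr hc1 h1.2)

/-- **The local theorem.** -/
theorem low_local {c : ℕ} {X : 𝒱.Obj} (hc : c + 1 ≤ X.dim) :
    LowCyclesZero H c X ↔ ∀ E : D.B X, 1 ≤ D.rk E → can X + D.c E 1 = 0 →
      LowCanonicalZero H can c (D.P E) := by
  constructor
  · intro h E hr _ i hi hcl
    refine low_proj hD h E hr i hi _ ?_ hcl
    have hdim := hD.proj.dim E hr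
    have h1 := pow_deg (isBasic hC) (L_deg (isBasic hC) hD (hcan.mem (D.P E))) ((D.P E).dim - i)
    rwa [Nat.cast_sub (by omega)] at h1
  · intro h i hi x hx hcl
    have e : ((X.dim : ℤ) - i) = ((X.dim - i : ℕ) : ℤ) := by
      rw [Nat.cast_sub (by omega)]
    rw [e] at hx
    refine low_step hD hcan (n := X.dim - i) (by omega) ?_ hx hcl
    intro E hr hc1 h1
    have hdim := hD.proj.dim E hr
    have e2 : D.rk E + (X.dim - i) - 1 = (D.P E).dim - i := by omega
    rw [e2] at h1 ⊢
    exact h E hr hc1 i hi h1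

/-- **The global theorem.** -/
theorem low_global (hh : BundleHodge D hodge) (hR : IsRationalHodge D R hodge) :
    List.TFAE [
      ∀ (c : ℕ) (X : 𝒱.Obj), HodgeConiveau hodge c X → LowCyclesZero H c X,
      ∀ (c : ℕ) (X : 𝒱.Obj), R X → HodgeConiveau hodge c X → LowPowersZero H D c X,
      ∀ (c : ℕ) (X : 𝒱.Obj), R X → HodgeConiveau hodge c X → LowCanonicalZero H can c X] := by
  tfae_have 1 → 2 := by
    intro h c X _ hX l hl i hi hcl
    rcases Nat.lt_or_ge X.dim i with h1 | h1
    · exfalso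
      rw [Nat.sub_eq_zero_of_le h1.le, pow_zero, map_one] at hcl
      exact hH.one_ne_zero X hcl
    · refine h c X hX i hi _ ?_ hcl
      have h2 := pow_deg (isBasic hC) (L_deg (isBasic hC) hD hl) (X.dim - i)
      rwa [Nat.cast_sub h1] at h2
  tfae_have 2 → 3 := fun h c X hRX hX i hi hcl => h c X hRX hX _ (hcan.mem X) i hi hcl
  tfae_have 3 → 1 := by
    intro h c Y hY i hi x hx hcl
    rcases le_or_gt ((Y.dim : ℤ) - i) 0 with h0 | h0
    · exact zero_of_codim_le h0 hx hcl
    · obtain ⟨p, hp⟩ : ∃ p : ℕ, Y.dim = p + i := ⟨Y.dim - i, by omega⟩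
      have hp1 : 1 ≤ p := by omega
      have e1 : ((Y.dim : ℤ) - i) = p := by rw [hp]; push_cast; ring
      rw [e1] at hx
      obtain ⟨T, F, j, g, ζ, c', hRT, hcen, hT⟩ := hR.centre Y
      have hb := isBasic hC
      have hpos := hcen.pos
      have hζ : C.Deg (1 : ℕ) ζ := by exact_mod_cast hcen.deg
      have hζn := pow_deg hb hζ
      have hgx : C.Deg p (C.pull g x) := hb.pull_mem g hx
      set y : C.A F := C.pull g x * ζ ^ (c' - 1) with hy
      have hyd : C.Deg ((p + (c' - 1) : ℕ) : ℤ) y := hb.mul_mem hgx (hζn (c' - 1))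
      have hyd' : C.Deg ((p + c' : ℕ) : ℤ) (C.push j y) :=
        hb.push_mem j (by rw [hcen.dimT]; omega) hyd
      have hycl : H.cl (C.push j y) = 0 := by
        have h1 : H.cl (C.push j y) = H.down j (H.cl y) := hH.isClassMap.cl_push j y
        have h2 : H.cl y = 0 := by
          have h3 : H.cl (C.pull g x) = H.up g (H.cl x) := hH.isClassMap.cl_pull g x
          rw [hy, map_mul, h3, hcl]
          rw [show H.up g (0 : H.A Y) = 0 from map_zero _, zero_mul]
        rw [h1, h2]
        exact map_zero _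
      have h1 : C.push j y = 0 := by
        refine low_step hD hcan (n := p + c') (by omega) ?_ hyd' hycl
        intro E hr _ h2
        have hdim := hD.proj.dim E hr
        have h3 := hcen.dimT
        have h4 := hcen.dimF
        have e2 : D.rk E + (p + c') - 1 = (D.P E).dim - (i + 1) := by omega
        rw [e2] at h2 ⊢
        exact h (c + 1) (D.P E) (hR.proj T hRT E hr)
          (coniveau_proj hh (coniveau_centre hY hT) E hr) (i + 1) (by omega) h2
      have h2 : C.pull j (C.push j y) = ζ * y := hcen.formula.self y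
      have h3 : ζ * y = C.pull g x * ζ ^ c' := by
        rw [hy, ← mul_assoc, hb.comm hζ hgx, mul_assoc, ← pow_succ',
          show c' - 1 + 1 = c' by omega]
      have h4 : C.push g (C.pull g x * ζ ^ c') = x * C.push g (ζ ^ c') :=
        hb.proj g (hζn c') hx
      rw [← h3, ← h2, h1, map_zero, map_zero, hcen.formula.top] at h4
      have h5 : x * (-1 : C.A Y) ^ c' * (-1) ^ c' = x := by
        rw [mul_assoc, ← pow_add, ← two_mul, pow_mul, neg_one_sq, one_pow, mul_one]
      rw [← h5, ← h4, zero_mul]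
  tfae_finish

end

end Pool.Agent.Y101.Aq
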