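import Pool.Agent.Y101.Aq.Bun

/-!
# Chern characters of vector bundles: negatives modulo trivial bundles
-/

open CategoryTheory AlgebraicGeometry Finset

universe u v w

namespace Pool.Agent.Y101.Aq

open Pool.Agent.H914 Pool.Agent.H914.VarClass Pool.Agent.H914.VarClass.Obj Pool.Agent.W492.BB

section Alg

lemma key_sum {d j : ℕ} (h : j ≤ d) : ∑ i ∈ range (d + 1),
    ((-1 : ℚ) ^ (i + 1) * ((d + 1).choose (i + 1) : ℚ)) * (-(i : ℚ)) ^ j = -1 := by
  have h1 := congrFun (fwdDiff_iter_pow_eq_zero_of_lt (R := ℚ) (show j < d + 1 by omega)) (-1)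
  rw [fwdDiff_iter_eq_sum_shift, Finset.sum_range_succ'] at h1
  simp only [Nat.sub_zero, Nat.choose_zero_right, zero_smul, add_zero, Pi.zero_apply,
    Nat.cast_one, mul_one] at h1
  have h2 : ∑ i ∈ range (d + 1), ((-1 : ℚ) ^ (i + 1) * ((d + 1).choose (i + 1) : ℚ)) *
      (-(i : ℚ)) ^ j = ((-1 : ℚ) ^ j * (-1) ^ (d + 1)) * ∑ i ∈ range (d + 1),
        ((-1 : ℤ) ^ (d + 1 - (i + 1)) * ((d + 1).choose (i + 1) : ℤ)) •
          ((-1 : ℚ) + (i + 1) • (1 : ℚ)) ^ j := by
    rw [Finset.mul_sum]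
    apply Finset.sum_congr rfl
    intro i hi
    rw [Finset.mem_range] at hi
    have e1 : (-1 : ℚ) + (i + 1) • (1 : ℚ) = i := by
      rw [nsmul_eq_mul]; push_cast; ring
    have e2 : (-1 : ℚ) ^ (i + 1) = (-1) ^ (d + 1) * (-1) ^ (d - i) := by
      have e0 : (-1 : ℚ) ^ (i + 1 + 2 * (d - i)) = (-1) ^ (i + 1) := by
        rw [pow_add _ (i + 1), pow_mul, neg_one_sq, one_pow, mul_one]
      rw [← pow_add, show d + 1 + (d - i) = i + 1 + 2 * (d - i) by omega, e0]
    rw [e1, e2, zsmul_eq_mul, neg_pow (i : ℚ) j, show d + 1 - (i + 1) = d - i by omega]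
    push_cast
    ring
  rw [h2, eq_neg_of_add_eq_zero_left h1, zsmul_eq_mul]
  have e3 : (-1 : ℚ) ^ j * (-1) ^ j = 1 := by rw [← mul_pow]; norm_num
  have e4 : (-1 : ℚ) ^ (d + 1) * (-1) ^ (d + 1) = 1 := by rw [← mul_pow]; norm_num
  push_cast
  linear_combination (-(1 : ℚ)) * e3 * (-1 : ℚ) ^ (d + 1) * (-1) ^ (d + 1) - e4

variable {A : Type*} [Ring A] [Algebra ℚ A]

/-- The Chern character of a trivial bundle. -/
def cst (A : Type*) [Ring A] [Algebra ℚ A] (r : ℚ) (i : ℕ) : A := if i = 0 then r • (1 : A) else 0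

lemma cst_add (r s : ℚ) (i : ℕ) : cst A (r + s) i = cst A r i + cst A s i := by
  unfold cst
  split_ifs
  · rw [add_smul]
  · rw [add_zero]

lemma cst_smul (r s : ℚ) (i : ℕ) : cst A (r * s) i = r • cst A s i := by
  unfold cst
  split_ifs
  · rw [mul_smul]
  · rw [smul_zero]

lemma expS_zero_right (i : ℕ) : expS (0 : A) i = cst A 1 i := by
  unfold cst expS
  split_ifs with h
  · subst h
    simp
  · rw [zero_pow h, smul_zero]

lemma expS_zero (l : A) : expS l 0 = 1 := by simp [expS]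

lemma cst_conv (k : ℚ) (b : A) (i : ℕ) :
    ∑ j ∈ range (i + 1), (j.factorial : ℚ)⁻¹ • (cst A k (i - j) * b ^ j) = k • expS b i := by
  rw [Finset.sum_eq_single i]
  · rw [Nat.sub_self, cst, if_pos rfl, smul_mul_assoc, one_mul, expS, smul_comm]
  · intro j hj hji
    rw [Finset.mem_range] at hj
    rw [cst, if_neg (by omega), zero_mul, smul_zero]
  · intro h
    exact absurd (Finset.mem_range.2 (by omega)) h

lemma exp_conv {a b : A} (h : Commute a b) (i : ℕ) :
    ∑ j ∈ range (i + 1), (j.factorial : ℚ)⁻¹ • (expS a (i - j) * b ^ j) = expS (a + b) i := by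
  unfold expS
  rw [add_comm a b, h.symm.add_pow, Finset.smul_sum]
  apply Finset.sum_congr rfl
  intro j hj
  rw [Finset.mem_range] at hj
  have h9 : ((i.choose j : ℕ) : A) = ((i.choose j : ℕ) : ℚ) • (1 : A) := natCast_smul_one _
  rw [h9, mul_smul_comm, mul_one, smul_smul, smul_mul_assoc, smul_smul,
    (h.pow_pow (i - j) j).eq]
  congr 1
  have h4 : (i.factorial : ℚ) ≠ 0 := Nat.cast_ne_zero.2 (Nat.factorial_ne_zero _)
  have h5 : (j.factorial : ℚ) ≠ 0 := Nat.cast_ne_zero.2 (Nat.factorial_ne_zero _)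
  have h6 : ((i - j).factorial : ℚ) ≠ 0 := Nat.cast_ne_zero.2 (Nat.factorial_ne_zero _)
  have h7 : ((i.choose j : ℕ) : ℚ) * j.factorial * (i - j).factorial = i.factorial := by
    exact_mod_cast Nat.choose_mul_factorial_mul_factorial (show j ≤ i by omega)
  have h8 : ((i.choose j : ℕ) : ℚ) ≠ 0 := by
    intro h
    rw [h, zero_mul, zero_mul] at h7
    exact h4 h7.symm
  rw [← h7]
  field_simp

end Alg

variable {k : Type u} [Field k] {𝒱 : VarClass k} {C : TheoryData.{u, v, 0} 𝒱 ℚ}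

/-- The sequence `f` is the Chern character of a vector bundle on `X`. -/
def IsCh (D : BundleData.{u, v, w} C) (X : 𝒱.Obj) (f : ℕ → C.A X) : Prop :=
  ∃ E : D.B X, ∀ i, D.ch E i = f i

variable {D : BundleData.{u, v, w} C}

lemma IsCh.congr {X : 𝒱.Obj} {f g : ℕ → C.A X} (hf : IsCh D X f) (h : ∀ i, f i = g i) :
    IsCh D X g := by
  obtain ⟨E, hE⟩ := hf
  exact ⟨E, fun i => (hE i).trans (h i)⟩

section

variable (hD : IsBundleTheory D)
include hD

lemma isCh_cst (X : 𝒱.Obj) (m : ℕ) : IsCh D X (cst (C.A X) m) := by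
  obtain ⟨E, hE, h⟩ := hD.operations.triv X m
  refine ⟨E, fun i => ?_⟩
  unfold cst
  split_ifs with hi
  · subst hi
    rw [hD.chern.rank, hE]
  · exact h i (by omega)

lemma isCh_add {X : 𝒱.Obj} {f g : ℕ → C.A X} (hf : IsCh D X f) (hg : IsCh D X g) :
    IsCh D X (fun i => f i + g i) := by
  obtain ⟨E, hE⟩ := hf
  obtain ⟨F, hF⟩ := hg
  obtain ⟨G, -, hG⟩ := hD.operations.sum E F
  exact ⟨G, fun i => by rw [hG, hE, hF]⟩

lemma isCh_zero (X : 𝒱.Obj) : IsCh D X (fun _ => 0) := by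
  refine (isCh_cst hD X 0).congr fun i => ?_
  unfold cst
  split_ifs <;> simp

lemma isCh_nsmul {X : 𝒱.Obj} {f : ℕ → C.A X} (hf : IsCh D X f) (N : ℕ) :
    IsCh D X (fun i => (N : ℚ) • f i) := by
  induction N with
  | zero => exact (isCh_zero hD X).congr fun i => by simp
  | succ N ih =>
    exact (isCh_add hD ih hf).congr fun i => by push_cast; rw [add_smul, one_smul]

lemma isCh_sum {X : 𝒱.Obj} {ι : Type*} (s : Finset ι) (f : ι → ℕ → C.A X)
    (hf : ∀ a, IsCh D X (f a)) : IsCh D X (fun i => ∑ a ∈ s, f a i) := by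
  classical
  induction s using Finset.induction_on with
  | empty => simpa using isCh_zero hD X
  | insert a s ha ih =>
    exact (isCh_add hD (hf a) ih).congr fun i => by rw [Finset.sum_insert ha]

lemma isCh_twist {X : 𝒱.Obj} {f : ℕ → C.A X} (hf : IsCh D X f) {l : C.A X} (hl : l ∈ D.L X) :
    IsCh D X (fun i => ∑ j ∈ range (i + 1), (j.factorial : ℚ)⁻¹ • (f (i - j) * l ^ j)) := by
  obtain ⟨E, hE⟩ := hf
  obtain ⟨G, -, hG⟩ := hD.operations.twist E l hl
  exact ⟨G, fun i => by rw [hG i]; simp only [hE]⟩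

lemma isCh_exp {X : 𝒱.Obj} {l : C.A X} (hl : l ∈ D.L X) : IsCh D X (expS l) := by
  refine (isCh_twist hD (isCh_cst hD X 1) hl).congr fun i => ?_
  have := cst_conv (1 : ℚ) l i
  rw [one_smul] at this
  rw [← this, Nat.cast_one]

lemma zero_mem_L {X : 𝒱.Obj} {l : C.A X} (hl : l ∈ D.L X) : (0 : C.A X) ∈ D.L X := by
  have := hD.chern.L_add l hl (-l) (hD.chern.L_mem l hl).2
  rwa [add_neg_cancel] at this

lemma nsmul_mem_L {X : 𝒱.Obj} {l : C.A X} (hl : l ∈ D.L X) (m : ℕ) : (m : ℚ) • l ∈ D.L X := by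
  induction m with
  | zero => simpa using zero_mem_L hD hl
  | succ m ih =>
    push_cast
    rw [add_smul, one_smul]
    exact hD.chern.L_add _ ih _ hl

lemma isCh_neg_twist {X : 𝒱.Obj} {k' : ℕ} {a b : C.A X} (h : Commute a b)
    (hf : IsCh D X (fun i => cst (C.A X) k' i - expS a i)) (hb : b ∈ D.L X) :
    IsCh D X (fun i => (k' : ℚ) • expS b i - expS (a + b) i) := by
  refine (isCh_twist hD hf hb).congr fun i => ?_
  rw [← cst_conv, ← exp_conv h, ← Finset.sum_sub_distrib]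
  apply Finset.sum_congr rfl
  intro j _
  rw [sub_mul, smul_sub]

/-- `O(-i l)` is a subbundle of a trivial bundle. -/
lemma isCh_sub_neg {X : 𝒱.Obj} {l : C.A X} (hl : l ∈ D.L X)
    (hG : ∃ G : D.B X, ∀ i ≥ 1, D.ch G i = -expS (-l) i) (m : ℕ) :
    ∃ r : ℕ, IsCh D X (fun i => cst (C.A X) r i - expS (-((m : ℚ) • l)) i) := by
  induction m with
  | zero =>
    refine ⟨1, ?_⟩
    refine (isCh_zero hD X).congr fun i => ?_
    rw [Nat.cast_zero, zero_smul, neg_zero, expS_zero_right, Nat.cast_one, sub_self]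
  | succ m ih =>
    obtain ⟨r, hr⟩ := ih
    obtain ⟨G, hG⟩ := hG
    have h1 : IsCh D X (fun i => cst (C.A X) (D.rk G + 1 : ℕ) i - expS (-l) i) := by
      refine IsCh.congr (f := D.ch G) ⟨G, fun _ => rfl⟩ fun i => ?_
      rcases Nat.eq_zero_or_pos i with rfl | hi
      · rw [hD.chern.rank, expS_zero]
        unfold cst
        rw [if_pos rfl]
        push_cast
        rw [add_smul, one_smul, add_sub_cancel_right]
      · rw [hG i hi]
        unfold cst
        rw [if_neg (by omega), zero_sub]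
    have hml := (hD.chern.L_mem _ (nsmul_mem_L hD hl m)).2
    have hcomm : Commute (-l) (-((m : ℚ) • l)) :=
      ((Commute.refl l).smul_right (m : ℚ)).neg_left.neg_right
    have h2 := isCh_neg_twist hD hcomm h1 hml
    have h3 := isCh_add hD (isCh_nsmul hD hr (D.rk G + 1)) h2
    refine ⟨(D.rk G + 1) * r, ?_⟩
    refine h3.congr fun i => ?_
    rw [smul_sub, Nat.cast_mul, cst_smul]
    have e : -l + -((m : ℚ) • l) = -(((m + 1 : ℕ) : ℚ) • l) := by
      push_cast
      rw [add_smul, one_smul]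
      abel
    rw [e]
    abel

variable (hC : IsBasic C)
include hC

/-- The line bundle `O(m l)` is a subbundle of a trivial bundle up to isomorphism in the K-group. -/
lemma isCh_neg_exp {X : 𝒱.Obj} {l : C.A X} (hl : l ∈ D.L X)
    (hG : ∃ G : D.B X, ∀ i ≥ 1, D.ch G i = -expS (-l) i) (m : ℕ) :
    ∃ r : ℕ, IsCh D X (fun i => cst (C.A X) r i - expS ((m : ℚ) • l) i) := by
  set d := X.dim with hd
  set l' := (m : ℚ) • l with hl'
  have hl'L : l' ∈ D.L X := nsmul_mem_L hD hl m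
  set a : ℕ → ℚ := fun i => (-1 : ℚ) ^ (i + 1) * ((d + 1).choose (i + 1) : ℚ) with ha
  have hl'deg : C.Deg (1 : ℕ) l' := by
    have := (hD.chern.L_mem l' hl'L).1
    exact_mod_cast this
  have hzero : ∀ j, d < j → l' ^ j = 0 := fun j hj => hC.gr_top (pow_deg hC hl'deg j) hj
  have h1 : ∀ j, expS l' j = -∑ i ∈ range (d + 1), a i • expS (-((i : ℚ) • l')) j := by
    intro j
    have e : ∀ i ∈ range (d + 1), a i • expS (-((i : ℚ) • l')) j =
        ((j.factorial : ℚ)⁻¹ * (a i * (-(i : ℚ)) ^ j)) • l' ^ j := by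
      intro i _
      rw [expS, ← neg_smul, _root_.smul_pow, smul_smul, smul_smul]
      congr 1
      ring
    rw [Finset.sum_congr rfl e]
    by_cases hj : j ≤ d
    · rw [← Finset.sum_smul, ← Finset.mul_sum, key_sum hj, mul_neg_one, neg_smul, neg_neg, expS]
    · rw [expS, hzero j (by omega), smul_zero, eq_comm, neg_eq_zero]
      exact Finset.sum_eq_zero fun i _ => smul_zero _
  have h2 : ∀ i : ℕ, ∃ r : ℕ, IsCh D X
      (fun j => cst (C.A X) r j + a i • expS (-((i : ℚ) • l')) j) := by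
    intro i
    obtain ⟨r, hr⟩ := isCh_sub_neg hD hl hG (i * m)
    have e : ((i * m : ℕ) : ℚ) • l = (i : ℚ) • l' := by
      rw [hl', smul_smul]; push_cast; rfl
    rw [e] at hr
    rcases Nat.even_or_odd i with hi | hi
    · refine ⟨(d + 1).choose (i + 1) * r, ?_⟩
      refine (isCh_nsmul hD hr ((d + 1).choose (i + 1))).congr fun j => ?_
      have e2 : a i = -((d + 1).choose (i + 1) : ℚ) := by
        rw [ha]
        simp only
        rw [pow_succ, hi.neg_one_pow, one_mul, neg_one_mul]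
      rw [smul_sub, Nat.cast_mul, cst_smul, e2, neg_smul, sub_eq_add_neg]
    · refine ⟨0, ?_⟩
      have hiL : -((i : ℚ) • l') ∈ D.L X := (hD.chern.L_mem _ (nsmul_mem_L hD hl'L i)).2
      refine (isCh_nsmul hD (isCh_exp hD hiL) ((d + 1).choose (i + 1))).congr fun j => ?_
      have e2 : a i = ((d + 1).choose (i + 1) : ℚ) := by
        rw [ha]
        simp only
        rw [pow_succ, hi.neg_one_pow, neg_mul_neg, one_mul, one_mul]
      have e3 : cst (C.A X) 0 j = 0 := by unfold cst; split_ifs <;> simp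
      rw [Nat.cast_zero, e3, e2, zero_add]
  choose r hr using h2
  refine ⟨∑ i ∈ range (d + 1), r i, ?_⟩
  refine (isCh_sum hD (range (d + 1)) _ hr).congr fun j => ?_
  rw [h1, sub_neg_eq_add, Finset.sum_add_distrib]
  congr 1
  push_cast
  unfold cst
  split_ifs
  · rw [Finset.sum_smul]
  · rw [Finset.sum_const_zero]

/-- **Negatives modulo trivial bundles.** For a vector bundle `F` there is a vector bundle with the
Chern character `r - ch(F)`. -/
theorem exists_neg {X : 𝒱.Obj} (F : D.B X) :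
    ∃ r : ℕ, IsCh D X (fun i => cst (C.A X) r i - D.ch F i) := by
  obtain ⟨l, hl, hG, hF⟩ := hD.operations.ample X
  obtain ⟨G, m, hGm⟩ := hF F
  obtain ⟨r, hr⟩ := isCh_neg_exp hD hC hl hG m
  refine ⟨(D.rk F + D.rk G) * r, ?_⟩
  refine (isCh_add hD (isCh_nsmul hD hr (D.rk F + D.rk G))
    (g := D.ch G) ⟨G, fun _ => rfl⟩).congr fun i => ?_
  have h := hGm i
  rw [smul_sub, Nat.cast_mul, cst_smul]
  push_cast
  rw [← h]
  abel

/-- **The bundle attached to a class.** For a class `x` of codimension `i ≥ 1` and a vector bundle `F`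
there is a vector bundle with the Chern character `r - ch(F) + n x` for some `n ≥ 1`. -/
theorem exists_bundle {X : 𝒱.Obj} {i : ℕ} (hi : 1 ≤ i) {x : C.A X} (hx : C.Deg i x) (F : D.B X) :
    ∃ (n r : ℕ), 1 ≤ n ∧ IsCh D X
      (fun j => cst (C.A X) r j - D.ch F j + if j = i then (n : ℚ) • x else 0) := by
  obtain ⟨E, E', n, hn, -, hEE⟩ := hD.operations.chern i x hi hx
  obtain ⟨r, hG⟩ := exists_neg hD hC E'
  obtain ⟨r', hG'⟩ := exists_neg hD hC F
  refine ⟨n, r + r', hn, (isCh_add hD (isCh_add hD (f := D.ch E) ⟨E, fun _ => rfl⟩ hG)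
    hG').congr fun j => ?_⟩
  rw [hEE, Nat.cast_add, cst_add]
  abel

end

end Pool.Agent.Y101.Aq
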