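import Pool.Agent.Y101.Aq.KNeg

/-!
# Adequate equivalence relations are determined by the powers of divisors
-/

open CategoryTheory AlgebraicGeometry Finset

universe u v w

namespace Pool.Agent.Y101.Aq

open Pool.Agent.H914 Pool.Agent.H914.VarClass Pool.Agent.H914.VarClass.Obj Pool.Agent.W492.BB

variable {k : Type u} [Field k] {𝒱 : VarClass k} {C : TheoryData.{u, v, 0} 𝒱 ℚ}
  {D : BundleData.{u, v, w} C}

lemma smul_mem_iff' {A : Type*} [AddCommGroup A] [Module ℚ A] (S : Submodule ℚ A) {q : ℚ}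
    (hq : q ≠ 0) {a : A} : q • a ∈ S ↔ a ∈ S := Submodule.smul_mem_iff S hq

section

variable (hC : IsBasic C) (hD : IsBundleTheory D)
include hC hD

lemma L_deg {X : 𝒱.Obj} {l : C.A X} (hl : l ∈ D.L X) : C.Deg (1 : ℕ) l := by
  have := (hD.chern.L_mem l hl).1
  exact_mod_cast this

/-- The powers of `ξ` and the Chern classes of the bundle. -/
lemma xi_iff' {I : Family C} (hI : IsAdequate I) {X : 𝒱.Obj} (E : D.B X) (hr : 1 ≤ D.rk E) :
    D.ξ E ^ D.rk E ∈ I (D.P E) (D.rk E) ↔ ∀ i ≥ 1, D.c E i ∈ I X i := by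
  rw [xi_iff hC hI hr (hD.proj.dim E hr) (L_deg hC hD (hD.proj.xi_mem E hr))
    (fun i => hD.chern.c_mem E i) (hD.chern.newton E).1 (hD.proj.formula E hr)]
  constructor
  · intro h i hi
    by_cases hir : i ≤ D.rk E
    · exact h i hi hir
    · rw [hD.chern.c_top E i (by omega)]
      exact Submodule.zero_mem _
  · intro h i hi _
    exact h i hi

omit hD in
/-- The degrees of the Chern classes of the formal twist. -/
lemma shiftC_deg {X : 𝒱.Obj} {c : ℕ → C.A X} (hc : ∀ i : ℕ, C.Deg i (c i)) {a : C.A X}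
    (ha : C.Deg (1 : ℕ) a) (r i : ℕ) : C.Deg i (shiftC c a r i) := by
  apply Submodule.sum_mem
  intro j hj
  rw [Finset.mem_range] at hj
  apply Submodule.smul_mem
  exact deg_cast (hC.mul_mem (hc j) (pow_deg hC ha (i - j))) (by omega)

omit hC hD in
lemma shiftC_zero {A : Type*} [Ring A] [Algebra ℚ A] {c : ℕ → A} (hc : c 0 = 1) (a : A) (r : ℕ) :
    shiftC c a r 0 = 1 := by
  simp [shiftC, hc]

/-- The power of the relative canonical class and the Chern classes of the formal twist. -/
lemma relCan_iff {I : Family C} (hI : IsAdequate I) {X : 𝒱.Obj} (E : D.B X) (hr : 1 ≤ D.rk E) :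
    relCan D E ^ D.rk E ∈ I (D.P E) (D.rk E) ↔ ∀ i, 1 ≤ i → i ≤ D.rk E →
      shiftC (D.c E) ((D.rk E : ℚ)⁻¹ • D.c E 1) (D.rk E) i ∈ I X i := by
  set r := D.rk E with hrr
  set a := (r : ℚ)⁻¹ • D.c E 1 with ha
  have hr0 : (r : ℚ) ≠ 0 := Nat.cast_ne_zero.2 (by omega)
  have hξ := L_deg hC hD (hD.proj.xi_mem E hr)
  have hξn := pow_deg hC hξ
  have hadeg : C.Deg (1 : ℕ) a := Submodule.smul_mem _ _ (hD.chern.c_mem E 1)
  have hpa := hC.pull_mem (D.q E) hadeg
  have h1 : relCan D E = (-(r : ℚ)) • (D.ξ E - C.pull (D.q E) a) := by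
    rw [relCan, ha, map_smul, smul_sub, smul_smul, neg_mul, mul_inv_cancel₀ hr0, neg_smul,
      neg_one_smul, sub_neg_eq_add, ← hrr]
    abel
  rw [h1, _root_.smul_pow, smul_mem_iff' _ (pow_ne_zero _ (neg_ne_zero.2 hr0))]
  apply xi_iff hC hI hr (hD.proj.dim E hr)
  · exact Submodule.sub_mem _ hξ hpa
  · exact shiftC_deg hC (fun i => hD.chern.c_mem E i) hadeg r
  · exact shiftC_zero (hD.chern.newton E).1 a r
  · apply ProjFormula.shift (hD.proj.formula E hr) hr
    · exact hC.comm hpa hξ
    · intro i n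
      rw [← map_pow]
      exact hC.proj (D.q E) (hξn n) (pow_deg hC hadeg i)

/-- **Adequate equivalence relations on one variety and vector bundles.** -/
theorem local_tfae {I J : Family C} (hI : IsAdequate I) (hJ : IsAdequate J) (X : 𝒱.Obj) :
    List.TFAE [Implies I J X, ImpliesForBundles D I J X, ImpliesForXi D I J X,
      ImpliesForCanonical D I J X] := by
  tfae_have 1 → 2 := fun h E hE i hi => h i hi _ (hE i hi)
  tfae_have 2 → 1 := by
    intro h i hi x hx
    obtain ⟨F, -, hF⟩ := hD.operations.triv X 0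
    obtain ⟨n, r, hn, E, hE⟩ := exists_bundle hD hC hi (hI.le X i hx) F
    have hE' : ∀ j, 1 ≤ j → D.ch E j = if j = i then (n : ℚ) • x else 0 := by
      intro j hj
      have e : cst (C.A X) r j = 0 := by unfold cst; rw [if_neg (by omega)]
      refine (hE j).trans ?_
      beta_reduce
      rw [hF j hj, e, sub_zero, zero_add]
    have hch : ∀ j, 1 ≤ j → D.ch E j ∈ I X j := by
      intro j hj
      rw [hE' j hj]
      split_ifs with hij
      · subst hij
        exact Submodule.smul_mem _ _ hx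
      · exact Submodule.zero_mem _
    have hc := c_of_ch hC hI (hD.chern.newton E) (fun i => hD.chern.c_mem E i) hch
    have hcJ := h E hc
    have hchJ := ch_of_c hC hJ (hD.chern.newton E) (fun i => hD.chern.ch_mem E i) hcJ i hi
    rw [hE' i hi, if_pos rfl] at hchJ
    exact (smul_mem_iff' _ (Nat.cast_ne_zero.2 (by omega))).1 hchJ
  tfae_have 2 ↔ 3 := by
    constructor
    · intro h E hr hE
      exact (xi_iff' hC hD hJ E hr).2 (h E ((xi_iff' hC hD hI E hr).1 hE))
    · intro h E hE
      rcases Nat.eq_zero_or_pos (D.rk E) with h0 | h0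
      · intro i hi
        rw [hD.chern.c_top E i (by omega)]
        exact Submodule.zero_mem _
      · exact (xi_iff' hC hD hJ E h0).1 (h E h0 ((xi_iff' hC hD hI E h0).2 hE))
  tfae_have 1 → 4 := by
    intro h
    refine ⟨h 1 le_rfl, fun E hr hE => ?_⟩
    rw [relCan_iff hC hD hJ E hr]
    intro i hi hir
    exact h i hi _ ((relCan_iff hC hD hI E hr).1 hE i hi hir)
  tfae_have 4 → 2 := by
    rintro ⟨h1, h2⟩ E hE
    rcases Nat.eq_zero_or_pos (D.rk E) with h0 | hr
    · intro i hi
      rw [hD.chern.c_top E i (by omega)]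
      exact Submodule.zero_mem _
    set r := D.rk E with hrr
    set a := (r : ℚ)⁻¹ • D.c E 1 with ha
    have hadeg : C.Deg (1 : ℕ) a := Submodule.smul_mem _ _ (hD.chern.c_mem E 1)
    have haI : a ∈ I X 1 := Submodule.smul_mem _ _ (hE 1 le_rfl)
    have haJ : a ∈ J X 1 := h1 a haI
    have hpow : ∀ {I : Family C}, IsAdequate I → a ∈ I X 1 → ∀ n, 1 ≤ n → a ^ n ∈ I X n := by
      intro I hI haI n hn
      obtain ⟨n, rfl⟩ : ∃ m, n = m + 1 := ⟨n - 1, by omega⟩
      rw [pow_succ]
      exact IsAdequate.mul_left hC hI (pow_deg hC hadeg n) haI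
    have hcI : ∀ i, 1 ≤ i → i ≤ r → shiftC (D.c E) a r i ∈ I X i := by
      intro i hi _
      apply Submodule.sum_mem
      intro j hj
      rw [Finset.mem_range] at hj
      apply Submodule.smul_mem
      rcases Nat.eq_zero_or_pos j with rfl | hj0
      · exact IsAdequate.cast (IsAdequate.mul_left hC hI (hD.chern.c_mem E 0)
          (hpow hI haI (i - 0) (by omega))) (by omega)
      · exact IsAdequate.cast (hI.mul (hE j hj0) (pow_deg hC hadeg (i - j))) (by omega)
    have hcJ := (relCan_iff hC hD hJ E hr).1 (h2 E hr ((relCan_iff hC hD hI E hr).2 hcI))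
    intro i hi
    by_cases hir : i ≤ r
    · have h3 := hcJ i hi hir
      rw [← hrr, ← ha, shiftC, Finset.sum_range_succ, Nat.sub_self, pow_zero, Nat.choose_zero_right,
        Nat.cast_one, mul_one, one_smul, pow_zero, mul_one] at h3
      have h4 : ∑ j ∈ range i, ((-1) ^ (i - j) * ((r - j).choose (i - j) : ℚ)) •
          (D.c E j * a ^ (i - j)) ∈ J X i := by
        apply Submodule.sum_mem
        intro j hj
        rw [Finset.mem_range] at hj
        apply Submodule.smul_mem
        exact IsAdequate.cast (IsAdequate.mul_left hC hJ (hD.chern.c_mem E j)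
          (hpow hJ haJ (i - j) (by omega))) (by omega)
      exact (Submodule.add_mem_iff_right _ h4).1 h3
    · rw [hD.chern.c_top E i (by omega)]
      exact Submodule.zero_mem _
  tfae_finish

/-- **Adequate equivalence relations are determined by the powers of divisors on rational
varieties.** -/
theorem global_tfae {R : 𝒱.Obj → Prop} (hR : IsRationalClass D R) {I J : Family C}
    (hI : IsAdequate I) (hJ : IsAdequate J) :
    List.TFAE [∀ X, Implies I J X, ∀ X, ImpliesForPowers D I J X,
      ∀ X, R X → ImpliesForPowers D I J X, ∀ X, R X → ImpliesForBundles D I J X] := by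
  tfae_have 1 → 2 := fun h X v hv n hn hvn => h X n hn _ hvn
  tfae_have 2 → 3 := fun h X _ => h X
  tfae_have 3 → 4 := by
    intro h X hX
    refine ((local_tfae hC hD hI hJ X).out 2 1).1 ?_
    intro E hr hE
    exact h (D.P E) (hR.proj X hX E hr) _ (hD.proj.xi_mem E hr) _ hr hE
  tfae_have 4 → 1 := by
    intro h V i hi x hx
    obtain ⟨T, F, j, g, ζ, c, hT, hc⟩ := hR.centre V
    have hTI : Implies I J T := ((local_tfae hC hD hI hJ T).out 1 0).1 (h T hT)
    have hζ : C.Deg (1 : ℕ) ζ := by exact_mod_cast hc.deg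
    have h1 := hI.push j (i := i) (j := i + 1) (by rw [hc.dimT]; ring) (hI.pull g hx)
    have h2 := hJ.pull j (hTI (i + 1) (by omega) _ h1)
    have h3 : C.pull j (C.push j (C.pull g x)) = ζ * C.pull g x := hc.formula.self _
    have h4 : ζ * C.pull g x ∈ J F (i + 1) := by
      rw [← h3]; exact h2
    have h5 := IsAdequate.mul_left hC hJ (pow_deg hC hζ (c - 1)) h4
    have hxg : C.Deg (i : ℕ) (C.pull g x) := hC.pull_mem g (hI.le V i hx)
    have h6 : ζ ^ (c - 1) * (ζ * C.pull g x) = C.pull g x * ζ ^ c := by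
      have hpos := hc.pos
      rw [← mul_assoc, ← pow_succ, show c - 1 + 1 = c by omega,
        hC.comm (pow_deg hC hζ c) hxg]
    rw [h6] at h5
    have h7 := hJ.push g (j := i) (by rw [hc.dimF]; have := hc.pos; omega) h5
    have h8 : C.push g (C.pull g x * ζ ^ c) = x * C.push g (ζ ^ c) :=
      hC.proj g (pow_deg hC hζ c) (hI.le V i hx)
    have h9 : x * C.push g (ζ ^ c) = ((-1 : ℚ) ^ c) • x := by
      rw [hc.formula.top]
      have := neg_pow_smul (1 : C.A V) c
      rw [one_pow] at this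
      rw [this, mul_smul_comm, mul_one]
    have h10 : ((-1 : ℚ) ^ c) • x ∈ J V i := by
      rw [← h9, ← h8]; exact h7
    exact (smul_mem_iff' _ (pow_ne_zero _ (by norm_num))).1 h10
  tfae_finish

end

end Pool.Agent.Y101.Aq
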