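import Pool.Agent.Y101.Aq.Main

/-!
# Adequate equivalence relations: powers of divisors in the middle codimension
-/

open CategoryTheory AlgebraicGeometry Finset

universe u v w

namespace Pool.Agent.Y101.Aq

open Pool.Agent.H914 Pool.Agent.H914.VarClass Pool.Agent.H914.VarClass.Obj Pool.Agent.W492.BB

variable {k : Type u} [Field k] {𝒱 : VarClass k} {C : TheoryData.{u, v, 0} 𝒱 ℚ}
  {D : BundleData.{u, v, w} C}

/-- Rational equivalence: the zero family. -/
def zeroFam (C : TheoryData.{u, v, 0} 𝒱 ℚ) : Family C := fun _ _ => ⊥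

lemma zeroFam_adequate (C : TheoryData.{u, v, 0} 𝒱 ℚ) : IsAdequate (zeroFam C) where
  le _ _ := bot_le
  mul {X i j a b} ha _ := by
    have : a = 0 := ha
    subst this
    show (0 : C.A X) * b ∈ (⊥ : Submodule ℚ (C.A X))
    rw [zero_mul]
    exact Submodule.zero_mem _
  pull {X Y} f {i a} ha := by
    have : a = 0 := ha
    subst this
    show C.pull f (0 : C.A Y) ∈ (⊥ : Submodule ℚ (C.A X))
    rw [map_zero]
    exact Submodule.zero_mem _
  push {X Y} f {i j a} _ ha := by
    have : a = 0 := ha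
    subst this
    show C.push f (0 : C.A X) ∈ (⊥ : Submodule ℚ (C.A Y))
    rw [map_zero]
    exact Submodule.zero_mem _

section

variable (hC : IsBasic C) (hD : IsBundleTheory D)
include hC hD

/-- The product of `X` with a projective space: `T ⟶ X` of relative dimension `m`, and the class `ξ`
of a hyperplane. -/
lemma exists_product (X : 𝒱.Obj) (m : ℕ) : ∃ E : D.B X, 1 ≤ D.rk E ∧ (D.P E).dim = X.dim + m ∧
    D.ξ E ^ (m + 1) = 0 ∧ C.push (D.q E) (D.ξ E ^ m) = 1 ∧
    ∀ i < m, C.push (D.q E) (D.ξ E ^ i) = 0 := by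
  obtain ⟨E, hE, hch⟩ := hD.operations.triv X (m + 1)
  have hr : 1 ≤ D.rk E := by omega
  have hF := hD.proj.formula E hr
  refine ⟨E, hr, ?_, ?_, ?_, ?_⟩
  · have := hD.proj.dim E hr
    omega
  · have h := (xi_iff' hC hD (zeroFam_adequate C) E hr).2 ?_
    · rw [hE] at h
      exact h
    · intro i hi
      refine c_of_ch hC (zeroFam_adequate C) (hD.chern.newton E) (fun i => hD.chern.c_mem E i) ?_ i hi
      intro j hj
      rw [hch j hj]
      exact Submodule.zero_mem _
  · have := hF.top
    rwa [hE, Nat.add_sub_cancel] at this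
  · intro i hi
    exact hF.low i (by omega)

/-- It is enough to consider the middle codimension. -/
lemma powers_of_middle {R : 𝒱.Obj → Prop} (hR : ∀ X, R X → ∀ E : D.B X, 1 ≤ D.rk E → R (D.P E))
    {I J : Family C} (hI : IsAdequate I) (hJ : IsAdequate J)
    (h : ∀ X, R X → ImpliesInMiddle D I J X) (X : 𝒱.Obj) (hX : R X) :
    ImpliesForPowers D I J X := by
  intro v hv n hn hvn
  have hvd := L_deg hC hD hv
  have hvm := pow_deg hC hvd
  rcases Nat.le_total X.dim (2 * n) with hdn | hdn
  · obtain ⟨m, hm⟩ := Nat.exists_eq_add_of_le hdn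
    obtain ⟨E, hr, hdim, -, htop, -⟩ := exists_product hC hD X m
    have hξ := pow_deg hC (L_deg hC hD (hD.proj.xi_mem E hr))
    have h1 := h (D.P E) (hR X hX E hr) _ (hD.proj.pull_mem E hr v hv) n hn (by omega)
    rw [← map_pow] at h1
    have h2 := h1 (hI.pull (D.q E) hvn)
    have h3 := hJ.push (D.q E) (j := n) (by omega) (hJ.mul h2 (hξ m))
    have h4 : C.push (D.q E) (C.pull (D.q E) (v ^ n) * D.ξ E ^ m) = v ^ n := by
      rw [push_pull hC (D.q E) (hξ m) (hvm n), htop, mul_one]
    have h5 : C.down (D.q E) (C.mul (C.pull (D.q E) (v ^ n)) (D.ξ E ^ m)) = v ^ n := h4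
    rwa [h5] at h3
  · obtain ⟨m, hm⟩ := Nat.exists_eq_add_of_le hdn
    obtain ⟨E, hr, hdim, hzero, htop, hlow⟩ := exists_product hC hD X m
    have hξL := hD.proj.xi_mem E hr
    have hξ := pow_deg hC (L_deg hC hD hξL)
    have hpL := hD.proj.pull_mem E hr v hv
    have hcomm : Commute (C.pull (D.q E) v) (D.ξ E) :=
      hC.comm (L_deg hC hD hpL) (L_deg hC hD hξL)
    have hzero' : ∀ i, m < i → D.ξ E ^ i = 0 := by
      intro i hi
      obtain ⟨j, rfl⟩ : ∃ j, i = m + 1 + j := ⟨i - (m + 1), by omega⟩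
      rw [pow_add, hzero, zero_mul]
    have hexp := hcomm.add_pow (n + m)
    have hI1 : (C.pull (D.q E) v + D.ξ E) ^ (n + m) ∈ I (D.P E) (n + m) := by
      rw [hexp]
      apply Submodule.sum_mem
      intro j hj
      rw [Finset.mem_range] at hj
      rcases Nat.lt_or_ge j n with hjn | hjn
      · rw [hzero' (n + m - j) (by omega), mul_zero, zero_mul]
        exact Submodule.zero_mem _
      · rw [← nsmul_eq_mul', ← map_pow]
        apply Submodule.smul_of_tower_mem
        have h1 : v ^ j ∈ I X j := by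
          obtain ⟨l, rfl⟩ : ∃ l, j = n + l := ⟨j - n, by omega⟩
          rw [pow_add]
          exact hI.mul hvn (hvm l)
        exact IsAdequate.cast (hI.mul (hI.pull (D.q E) h1) (hξ (n + m - j))) (by omega)
    have hJ1 := h (D.P E) (hR X hX E hr) _ (hD.chern.L_add _ hpL _ hξL) (n + m) (by omega)
      (by omega) hI1
    have hJ2 := hJ.push (D.q E) (j := n) (by omega) hJ1
    have h3 : C.down (D.q E) ((C.up (D.q E) v + D.ξ E) ^ (n + m)) =
        ((n + m).choose n : ℚ) • v ^ n := by
      have h0 : (C.up (D.q E) v + D.ξ E) ^ (n + m) = _ := hexp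
      rw [h0]
      show C.push (D.q E) _ = _
      rw [map_sum, ← Finset.add_sum_erase _ _ (Finset.mem_range.2 (show n < n + m + 1 by omega))]
      have h4 : ∑ j ∈ (range (n + m + 1)).erase n, C.push (D.q E)
          (C.pull (D.q E) v ^ j * D.ξ E ^ (n + m - j) * ((n + m).choose j : C.A (D.P E))) = 0 := by
        apply Finset.sum_eq_zero
        intro j hj
        rw [Finset.mem_erase, Finset.mem_range] at hj
        rcases Nat.lt_or_ge j n with hjn | hjn
        · rw [hzero' (n + m - j) (by omega), mul_zero, zero_mul, map_zero]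
        · rw [← nsmul_eq_mul', map_nsmul, ← map_pow, push_pull hC (D.q E) (hξ _) (hvm j),
            hlow (n + m - j) (by omega), mul_zero, smul_zero]
      rw [h4, add_zero, ← nsmul_eq_mul', map_nsmul, ← map_pow,
        push_pull hC (D.q E) (hξ _) (hvm n), Nat.add_sub_cancel_left, htop, mul_one,
        Nat.cast_smul_eq_nsmul]
    rw [h3] at hJ2
    refine (smul_mem_iff' _ ?_).1 hJ2
    exact Nat.cast_ne_zero.2 (Nat.choose_pos (by omega)).ne'

/-- **Adequate equivalence relations are determined by the powers of divisors in the middle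
codimension on rational varieties.** -/
theorem middle_tfae {R : 𝒱.Obj → Prop} (hR : IsRationalClass D R) {I J : Family C}
    (hI : IsAdequate I) (hJ : IsAdequate J) :
    List.TFAE [∀ X, Implies I J X, ∀ X, ImpliesForPowers D I J X,
      ∀ X, R X → ImpliesForBundles D I J X, ∀ X, R X → ImpliesInMiddle D I J X] := by
  have h := global_tfae hC hD hR hI hJ
  tfae_have 1 ↔ 2 := h.out 0 1
  tfae_have 1 ↔ 3 := h.out 0 3
  tfae_have 2 → 4 := fun h X _ v hv n hn _ => h X v hv n hn
  tfae_have 4 → 1 := fun h' => (h.out 2 0).1 (powers_of_middle hC hD hR.proj hI hJ h')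
  tfae_finish

end

end Pool.Agent.Y101.Aq
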