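import Pool.Agent.Y101.Aq.CanL

/-!
# Adequate equivalence relations and high powers of the canonical classes
-/

open CategoryTheory AlgebraicGeometry Finset

universe u v w

namespace Pool.Agent.Y101.Aq

open Pool.Agent.H914 Pool.Agent.H914.VarClass Pool.Agent.H914.VarClass.Obj Pool.Agent.W492.BB

section Alg

variable {A : Type*} [Ring A] [Algebra ℚ A]

/-- If the Chern character is concentrated in degree `i` then so are the Chern classes in degrees
`1, ..., i`. -/
lemma newton_low {b ch : ℕ → A} (h : Newton b ch) {i : ℕ} (hi : 1 ≤ i) {y : A}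
    (hch : ∀ j, 1 ≤ j → ch j = if j = i then y else 0) :
    (∀ m, 1 ≤ m → m < i → b m = 0) ∧
      (i : ℚ) • b i = ((-1) ^ (i - 1) * (i.factorial : ℚ)) • y := by
  constructor
  · intro m hm hmi
    obtain ⟨m, rfl⟩ : ∃ l, m = l + 1 := ⟨m - 1, by omega⟩
    have h1 := h.2 m
    rw [Finset.sum_eq_zero] at h1
    · have h2 : ((m : ℚ) + 1) ≠ 0 := Nat.cast_add_one_ne_zero m
      have h3 := congrArg (fun z => ((m : ℚ) + 1)⁻¹ • z) h1
      simp only [smul_smul, inv_mul_cancel₀ h2, one_smul, smul_zero] at h3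
      exact h3
    · intro j hj
      rw [Finset.mem_range] at hj
      rw [hch (j + 1) (by omega), if_neg (by omega), zero_mul, smul_zero]
  · obtain ⟨i, rfl⟩ : ∃ l, i = l + 1 := ⟨i - 1, by omega⟩
    have h1 := h.2 i
    rw [Finset.sum_eq_single i] at h1
    · rw [hch (i + 1) (by omega), if_pos rfl, Nat.sub_self, h.1, mul_one] at h1
      push_cast
      exact h1
    · intro j hj hji
      rw [Finset.mem_range] at hj
      rw [hch (j + 1) (by omega), if_neg (by omega), zero_mul, smul_zero]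
    · intro hi'
      exact absurd (Finset.mem_range.2 (Nat.lt_succ_self i)) hi'

end Alg

variable {k : Type u} [Field k] {𝒱 : VarClass k} {C : TheoryData.{u, v, 0} 𝒱 ℚ}
  {D : BundleData.{u, v, w} C}

section

variable (hC : IsBasic C)
include hC

/-- The push-forward of a high power of `ξ`. -/
lemma push_xi {X T : 𝒱.Obj} {q : T ⟶ X} {b : ℕ → C.A X}
    {ξ : C.A T} {r i : ℕ} (hr : 1 ≤ r) (hi : 2 ≤ i) (hir : i ≤ r + 1) (hξ : C.Deg (1 : ℕ) ξ)
    (hb : ∀ i : ℕ, C.Deg i (b i)) (hb0 : b 0 = 1) (hblow : ∀ m, 1 ≤ m → m < i → b m = 0)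
    (hrel : ∑ i ∈ range (r + 2), (-1 : ℚ) ^ i • (C.pull q (b i) * ξ ^ (r + 1 - i)) = 0)
    (htop : C.push q (ξ ^ (r - 1)) = 1) (hlow : ∀ i, i + 1 < r → C.push q (ξ ^ i) = 0) :
    C.push q (ξ ^ (r + i - 1)) = -((-1 : ℚ) ^ i • b i) := by
  have hξn := pow_deg hC hξ
  have h1 : ∑ m ∈ range (r + 2), (-1 : ℚ) ^ m •
      (b m * C.push q (ξ ^ (r + 1 - m + (i - 2)))) = 0 := by
    have h2 := congrArg (fun y => C.push q (y * ξ ^ (i - 2))) hrel
    simp only [zero_mul, map_zero, Finset.sum_mul, map_sum] at h2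
    rw [← h2]
    apply Finset.sum_congr rfl
    intro m _
    rw [smul_mul_assoc, map_smul, mul_assoc, ← pow_add, push_pull hC q (hξn _) (hb m)]
  rw [Finset.sum_range_succ', pow_zero, one_smul, hb0, one_mul, Nat.sub_zero,
    ← Finset.add_sum_erase _ _ (Finset.mem_range.2 (show i - 1 < r + 1 by omega)),
    show i - 1 + 1 = i by omega, show r + 1 - i + (i - 2) = r - 1 by omega, htop, mul_one,
    Finset.sum_eq_zero, add_zero] at h1
  · rw [show r + 1 + (i - 2) = r + i - 1 by omega] at h1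
    exact eq_neg_of_add_eq_zero_right h1
  · intro m hm
    rw [Finset.mem_erase, Finset.mem_range] at hm
    rcases Nat.lt_or_ge (m + 1) i with hmi | hmi
    · rw [hblow (m + 1) (by omega) hmi, zero_mul, smul_zero]
    · rw [hlow _ (by omega), mul_zero, smul_zero]

variable (hD : IsBundleTheory D)
include hD

/-- For each class `x` of codimension `i ≥ 2` which is `I`-equivalent to zero there is a vector
bundle `E` with `c_1(E) = - can X` such that the power `rk(E) + i - 1` of the canonical class of `P(E)`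
is `I`-equivalent to zero, and `x` is `J`-equivalent to zero if this power is. -/
theorem can_top {can : ∀ X : 𝒱.Obj, C.A X} (hcan : IsCanonical D can) {I J : Family C}
    (hI : IsAdequate I) (hJ : IsAdequate J) (X : 𝒱.Obj) (i : ℕ) (hi : 2 ≤ i) (x : C.A X)
    (hx : x ∈ I X i) :
    ∃ E : D.B X, 1 ≤ D.rk E ∧ can X + D.c E 1 = 0 ∧
      can (D.P E) ^ (D.rk E + i - 1) ∈ I (D.P E) (D.rk E + i - 1) ∧
      (can (D.P E) ^ (D.rk E + i - 1) ∈ J (D.P E) (D.rk E + i - 1) → x ∈ J X i) := by
  have hK : C.Deg (1 : ℕ) (can X) := L_deg hC hD (hcan.mem X)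
  obtain ⟨F, hF⟩ := isCh_exp hD (hcan.mem X)
  obtain ⟨n, r, hn, hE₀⟩ := exists_bundle hD hC (by omega) (hI.le X i hx) F
  obtain ⟨E₀, hE₀⟩ := hE₀
  obtain ⟨O, hO, hO'⟩ := hD.operations.triv X 1
  obtain ⟨E, hErk, hE⟩ := hD.operations.sum E₀ O
  have hr : 1 ≤ D.rk E := by omega
  set b := wh (D.c E) (can X) with hb
  have hnewton : Newton b (fun i => D.ch E i + expS (can X) i) :=
    newton_wh (hD.chern.newton E) (fun j => hC.comm hK (hD.chern.ch_mem E j))
  have hch : ∀ j, 1 ≤ j → D.ch E j + expS (can X) j = if j = i then (n : ℚ) • x else 0 := by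
    intro j hj
    have e : cst (C.A X) r j = 0 := by unfold cst; rw [if_neg (by omega)]
    rw [hE, hO' j hj, add_zero, hE₀ j]
    beta_reduce
    rw [hF j, e]
    abel
  have hbdeg : ∀ j : ℕ, C.Deg j (b j) := by
    intro j
    rcases j with _ | j
    · exact hD.chern.c_mem E 0
    · exact Submodule.add_mem _ (hD.chern.c_mem E (j + 1))
        (deg_cast (hC.mul_mem hK (hD.chern.c_mem E j)) (add_comm _ _))
  obtain ⟨hblow, hbi⟩ := newton_low hnewton (by omega : 1 ≤ i) hch
  have hb1 : b 1 = 0 := hblow 1 le_rfl (by omega)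
  have hbI : ∀ j, 1 ≤ j → b j ∈ I X j := by
    refine c_of_ch hC hI hnewton hbdeg ?_
    intro j hj
    rw [hch j hj]
    split_ifs with hji
    · subst hji
      exact Submodule.smul_mem _ _ hx
    · exact Submodule.zero_mem _
  have h1 := (can_pow_iff hC hD hcan hI E hr hb1).2 (fun j hj => hbI j (by omega))
  have hc1 : can X + D.c E 1 = 0 := by
    have h5 : b 1 = D.c E 1 + can X * D.c E 0 := rfl
    rw [(hD.chern.newton E).1, mul_one, hb1] at h5
    rw [add_comm, ← h5]
  have hcanP : C.Deg (1 : ℕ) (can (D.P E)) := L_deg hC hD (hcan.mem _)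
  refine ⟨E, hr, hc1, ?_, fun h2 => ?_⟩
  · have h3 := hI.mul h1 (pow_deg hC hcanP (i - 2))
    have h4 : C.mul (can (D.P E) ^ (D.rk E + 1)) (can (D.P E) ^ (i - 2)) =
        can (D.P E) ^ (D.rk E + i - 1) := by
      show _ * _ = _
      rw [← pow_add]
      congr 1
      omega
    rw [h4] at h3
    exact IsAdequate.cast h3 (by omega)
  · have hcan1 : can (D.P E) = (-(D.rk E : ℚ)) • D.ξ E := by
      rw [hcan.proj E hr, hc1]
      show C.pull (D.q E) 0 - _ = _
      rw [map_zero, zero_sub, neg_smul]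
    have hξ := L_deg hC hD (hD.proj.xi_mem E hr)
    have hF' := hD.proj.formula E hr
    have hc := fun i => hD.chern.c_mem E i
    have hrel := rel_wh hF' (can X) (hD.chern.c_top E _ (by omega))
      (hC.comm (hC.pull_mem (D.q E) hK) hξ) (fun i => hC.comm hξ (hC.pull_mem (D.q E) (hc i)))
    have hcoef : ((-1 : ℚ) ^ (i - 1) * (i.factorial : ℚ)) * n ≠ 0 := by
      have h7 : (n : ℚ) ≠ 0 := Nat.cast_ne_zero.2 (by omega)
      have h8 : (i.factorial : ℚ) ≠ 0 := Nat.cast_ne_zero.2 (Nat.factorial_ne_zero _)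
      exact mul_ne_zero (mul_ne_zero (pow_ne_zero _ (by norm_num)) h8) h7
    have hbx : (i : ℚ) • b i = (((-1 : ℚ) ^ (i - 1) * (i.factorial : ℚ)) * n) • x := by
      rw [hbi, smul_smul]
    have hfin : b i ∈ J X i → x ∈ J X i := by
      intro h9
      have h10 := Submodule.smul_mem (J X i) (i : ℚ) h9
      rw [hbx] at h10
      exact (smul_mem_iff' _ hcoef).1 h10
    apply hfin
    by_cases hir : i ≤ D.rk E + 1
    · rw [hcan1, _root_.smul_pow, smul_mem_iff' _ (pow_ne_zero _ (neg_ne_zero.2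
        (Nat.cast_ne_zero.2 (by omega))))] at h2
      have h3 := hJ.push (D.q E) (j := i) (by have := hD.proj.dim E hr; omega) h2
      have h4 : C.down (D.q E) (D.ξ E ^ (D.rk E + i - 1)) = -((-1 : ℚ) ^ i • b i) :=
        push_xi hC hr hi hir hξ hbdeg (hD.chern.newton E).1 hblow hrel hF'.top hF'.low
      rw [h4] at h3
      exact (smul_mem_iff' _ (pow_ne_zero i (by norm_num : (-1 : ℚ) ≠ 0))).1
        ((Submodule.neg_mem_iff _).1 h3)
    · obtain ⟨m, rfl⟩ : ∃ m, i = m + 1 := ⟨i - 1, by omega⟩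
      have h5 : b (m + 1) = D.c E (m + 1) + can X * D.c E m := rfl
      rw [h5, hD.chern.c_top E _ (by omega), hD.chern.c_top E m (by omega), mul_zero,
        add_zero]
      exact Submodule.zero_mem _

end

end Pool.Agent.Y101.Aq
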