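import Pool.Agent.Y101.Aq.Defs
import Pool.Agent.TH829.Prime.Defs

/-!
# Smash-nilpotence, canonical classes, powers of divisors: definitions
-/

open CategoryTheory AlgebraicGeometry

universe u v w w'

namespace Pool.Agent.Y101.Aq

open Pool.Agent.H914 Pool.Agent.H914.VarClass Pool.Agent.H914.VarClass.Obj Pool.Agent.W492.BB
  Pool.Agent.TH133 Pool.Agent.TH829.Prime

variable {k : Type u} [Field k] {𝒱 : VarClass k} {C : TheoryData.{u, v, 0} 𝒱 ℚ}

/-- The conjecture of Voevodsky for `X`: numerically trivial classes on `X` are smash-nilpotent. -/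
def NumVoevodsky (C : TheoryData.{u, v, 0} 𝒱 ℚ) (X : 𝒱.Obj) : Prop :=
  ∀ (i : ℤ) (a : C.A X), C.Deg i a → NumTrivial C i a → SmashNilpotent C a

/-- If the power `(can X) ^ n`, `n ≥ 1`, of the canonical class is numerically trivial then it is
smash-nilpotent. -/
def CanonicalVoevodsky (can : ∀ X : 𝒱.Obj, C.A X) (X : 𝒱.Obj) : Prop :=
  ∀ n : ℕ, 1 ≤ n → NumTrivial C n (can X ^ n) → SmashNilpotent C (can X ^ n)

/-- If `dim X = 2 n`, `n ≥ 1`, and `v ^ n` is numerically trivial for a divisor `v` on `X`, then `v ^ n`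
is smash-nilpotent. -/
def MiddleVoevodsky (D : BundleData.{u, v, w'} C) (X : 𝒱.Obj) : Prop :=
  ∀ n : ℕ, 1 ≤ n → X.dim = 2 * n → ∀ v ∈ D.L X, NumTrivial C n (v ^ n) →
    SmashNilpotent C (v ^ n)

/-- If the Chern classes `c_i(E)`, `i ≥ 1`, of a vector bundle `E` on `X` are numerically trivial then
they are smash-nilpotent. -/
def BundleVoevodsky (D : BundleData.{u, v, w'} C) (X : 𝒱.Obj) : Prop :=
  ∀ E : D.B X, (∀ i : ℕ, 1 ≤ i → NumTrivial C i (D.c E i)) →
    ∀ i : ℕ, 1 ≤ i → SmashNilpotent C (D.c E i)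

section Hom

variable {K : Type w} [Field K]

/-- The conjecture of Voevodsky for `X` and homological equivalence: homologically trivial classes on
`X` are smash-nilpotent. -/
def HomVoevodsky (H : WeilTheoryData.{u, v, w} C K) (X : 𝒱.Obj) : Prop :=
  ∀ (i : ℤ) (a : C.A X), C.Deg i a → H.cl a = 0 → SmashNilpotent C a

/-- Homologically trivial divisor classes on `X` are smash-nilpotent (a theorem of Voevodsky and
Voisin, since they are algebraically trivial up to torsion). -/
def DivisorVoevodsky (H : WeilTheoryData.{u, v, w} C K) (X : 𝒱.Obj) : Prop :=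
  ∀ a : C.A X, C.Deg 1 a → H.cl a = 0 → SmashNilpotent C a

/-- If `E` is a vector bundle of rank `r ≥ 1` on `X` with `c_1(E) = - can X`, and the `(r + 1)`-st power
of the canonical class of `P(E)` is homologically trivial, then it is smash-nilpotent. -/
def AnticanonicalVoevodsky (D : BundleData.{u, v, w'} C) (can : ∀ X : 𝒱.Obj, C.A X)
    (H : WeilTheoryData.{u, v, w} C K) (X : 𝒱.Obj) : Prop :=
  ∀ E : D.B X, 1 ≤ D.rk E → can X + D.c E 1 = 0 →
    H.cl (can (D.P E) ^ (D.rk E + 1)) = 0 → SmashNilpotent C (can (D.P E) ^ (D.rk E + 1))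

/-- If `E` is a vector bundle of rank `r ≥ 1` on `X` and the `r`-th power of the relative canonical
class `c_1(E) - r ξ` of `P(E)` is homologically trivial, then it is smash-nilpotent. -/
def RelCanonicalVoevodsky (D : BundleData.{u, v, w'} C) (H : WeilTheoryData.{u, v, w} C K)
    (X : 𝒱.Obj) : Prop :=
  ∀ E : D.B X, 1 ≤ D.rk E → H.cl (relCan D E ^ D.rk E) = 0 →
    SmashNilpotent C (relCan D E ^ D.rk E)

/-- If the Chern classes `c_i(E)`, `i ≥ 1`, of a vector bundle `E` on `X` are homologically trivial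
then they are smash-nilpotent. -/
def HomBundleVoevodsky (D : BundleData.{u, v, w'} C) (H : WeilTheoryData.{u, v, w} C K)
    (X : 𝒱.Obj) : Prop :=
  ∀ E : D.B X, (∀ i : ℕ, 1 ≤ i → H.cl (D.c E i) = 0) →
    ∀ i : ℕ, 1 ≤ i → SmashNilpotent C (D.c E i)

end Hom

end Pool.Agent.Y101.Aq
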