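import Pool.Agent.Y101.Aq.DMain
import Pool.Agent.Y101.Aq.VDefs

/-!
# Smash-nilpotence and the powers of the canonical classes
-/

open CategoryTheory AlgebraicGeometry Finset

universe u v w w'

namespace Pool.Agent.Y101.Aq

open Pool.Agent.H914 Pool.Agent.H914.VarClass Pool.Agent.H914.VarClass.Obj Pool.Agent.W492.BB
  Pool.Agent.TH133 Pool.Agent.TH829 Pool.Agent.TH829.Prime

variable {k : Type u} [Field k] {𝒱 : VarClass k} {C : TheoryData.{u, v, 0} 𝒱 ℚ}
  {K : Type w} [Field K] {H : WeilTheoryData.{u, v, w} C K} {D : BundleData.{u, v, w'} C}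

/-- The classes which belong to all prime adequate relations. -/
def smashFam (C : TheoryData.{u, v, 0} 𝒱 ℚ) : Family C := fun X i =>
  C.gr X i ⊓ ⨅ P : {P : Prime.Family C // IsPrime C P}, P.1 X i

section

variable [hC : IsChowProj C]

include hC

lemma mem_smashFam {X : 𝒱.Obj} {i : ℕ} {a : C.A X} (ha : C.Deg i a) :
    a ∈ smashFam C X i ↔ SmashNilpotent C a := by
  rw [smashNilpotent_iff ha, smashFam, Submodule.mem_inf, Submodule.mem_iInf]
  constructor
  · rintro ⟨-, h⟩ P hP
    exact h ⟨P, hP⟩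
  · intro h
    exact ⟨ha, fun P => h P.1 P.2⟩

omit hC in
lemma mem_smashFam' {X : 𝒱.Obj} {i : ℕ} {a : C.A X} :
    a ∈ smashFam C X i ↔ C.Deg i a ∧ ∀ P, IsPrime C P → a ∈ P X i := by
  rw [smashFam, Submodule.mem_inf, Submodule.mem_iInf]
  exact and_congr_right fun _ => ⟨fun h P hP => h ⟨P, hP⟩, fun h P => h P.1 P.2⟩

lemma smashFam_adequate : IsAdequate (smashFam C) where
  le X i a ha := (mem_smashFam'.1 ha).1
  mul {X i j a b} ha hb := by
    obtain ⟨h1, h2⟩ := mem_smashFam'.1 ha
    refine mem_smashFam'.2 ⟨(isBasic hC).mul_mem h1 hb, fun P hP => ?_⟩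
    exact (restr_adequate hP.toIsAdequate).mul (h2 P hP) hb
  pull {X Y} f {i a} ha := by
    obtain ⟨h1, h2⟩ := mem_smashFam'.1 ha
    refine mem_smashFam'.2 ⟨(isBasic hC).pull_mem f h1, fun P hP => ?_⟩
    exact (restr_adequate hP.toIsAdequate).pull f (h2 P hP)
  push {X Y} f {i j a} hij ha := by
    obtain ⟨h1, h2⟩ := mem_smashFam'.1 ha
    refine mem_smashFam'.2 ⟨(isBasic hC).push_mem f hij h1, fun P hP => ?_⟩
    exact (restr_adequate hP.toIsAdequate).push f hij (h2 P hP)

lemma smash_zero (X : 𝒱.Obj) : SmashNilpotent C (0 : C.A X) := ⟨0, rfl⟩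

/-- A homologically trivial class of codimension `i ≤ 0` is zero. -/
lemma zero_of_cl [hH : IsWeilProj H] {X : 𝒱.Obj} {i : ℤ} (hi : i ≤ 0) {x : C.A X}
    (hx : C.Deg i x) (h : H.cl x = 0) : x = 0 := by
  apply zero_of_numTrivial (one_ne H X) hi hx
  intro b hb
  apply hasDegree_zero_of_cl H
  · have h2 := hC.isTheory.isGradedRing.mul_mem (X := X) hx hb
    rwa [add_sub_cancel] at h2
  · show H.cl (x * b) = 0
    rw [map_mul, h, zero_mul]

lemma numVoevodsky_iff (hne : ∀ X : 𝒱.Obj, (1 : C.A X) ≠ 0) (X : 𝒱.Obj) :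
    NumVoevodsky C X ↔ Implies (restr (numFam C)) (smashFam C) X := by
  constructor
  · intro h i _ x hx
    exact (mem_smashFam hx.1).2 (h i x hx.1 hx.2)
  · intro h i x hx hnum
    rcases le_or_gt i 0 with hi | hi
    · rw [zero_of_numTrivial (hne X) hi hx hnum]
      exact smash_zero X
    · obtain ⟨n, rfl⟩ := Int.eq_ofNat_of_zero_le hi.le
      exact (mem_smashFam hx).1 (h n (by omega) x ⟨hx, hnum⟩)

lemma homVoevodsky_iff [hH : IsWeilProj H] (X : 𝒱.Obj) :
    HomVoevodsky H X ↔ ∀ i, ∀ x ∈ homFam H X i, x ∈ smashFam C X i := by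
  constructor
  · intro h i x hx
    exact (mem_smashFam hx.1).2 (h i x hx.1 hx.2)
  · intro h i x hx hcl
    rcases le_or_gt i 0 with hi | hi
    · rw [zero_of_cl (H := H) hi hx hcl]
      exact smash_zero X
    · obtain ⟨n, rfl⟩ := Int.eq_ofNat_of_zero_le hi.le
      exact (mem_smashFam hx).1 (h n x ⟨hx, hcl⟩)

variable (hD : IsBundleTheory D)

include hD

/-- **The conjecture of Voevodsky for all varieties and the powers of the canonical classes of the
rational varieties.** -/
theorem v_global (hne : ∀ X : 𝒱.Obj, (1 : C.A X) ≠ 0) {can : ∀ X : 𝒱.Obj, C.A X}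
    (hcan : IsCanonical D can) {R : 𝒱.Obj → Prop} (hR : IsRationalClass D R) :
    List.TFAE [∀ X, NumVoevodsky C X, ∀ X, R X → CanonicalVoevodsky can X,
      ∀ X, R X → MiddleVoevodsky D X, ∀ X, R X → BundleVoevodsky D X] := by
  have hI := restr_adequate (isAdequate_numFam (C := C) hne)
  have h := canonical_global (isBasic hC) hD hcan hR hI (smashFam_adequate (C := C))
  have e1 : ∀ X, CanonicalVoevodsky can X ↔
      ImpliesForCan can (restr (numFam C)) (smashFam C) X := by
    intro X
    refine forall_congr' fun n => forall_congr' fun _ => ?_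
    have h := vpow_deg hD (hcan.mem X) n
    exact imp_congr (mem_restr_num h).symm (mem_smashFam h).symm
  have e2 : ∀ X, MiddleVoevodsky D X ↔ ImpliesInMiddle D (restr (numFam C)) (smashFam C) X := by
    intro X
    constructor
    · intro h v hv n hn hdim hvn
      exact (mem_smashFam (vpow_deg hD hv n)).2
        (h n hn hdim v hv ((mem_restr_num (vpow_deg hD hv n)).1 hvn))
    · intro h n hn hdim v hv hvn
      exact (mem_smashFam (vpow_deg hD hv n)).1
        (h v hv n hn hdim ((mem_restr_num (vpow_deg hD hv n)).2 hvn))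
  have e3 : ∀ X, BundleVoevodsky D X ↔
      ImpliesForBundles D (restr (numFam C)) (smashFam C) X := by
    intro X
    refine forall_congr' fun E => imp_congr ?_ ?_
    · refine forall_congr' fun i => forall_congr' fun _ => ?_
      exact (mem_restr_num (hD.chern.c_mem E i)).symm
    · refine forall_congr' fun i => forall_congr' fun _ => ?_
      exact (mem_smashFam (hD.chern.c_mem E i)).symm
  simp only [e1, e2, e3, numVoevodsky_iff hne]
  tfae_have 1 ↔ 2 := h.out 0 3
  tfae_have 1 ↔ 3 := h.out 0 2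
  tfae_have 1 ↔ 4 := h.out 0 1
  tfae_finish

/-- **The conjecture of Voevodsky for one variety and homological equivalence, and the canonical
classes of the projective bundles.** -/
theorem v_local [hH : IsWeilProj H] {can : ∀ X : 𝒱.Obj, C.A X} (hcan : IsCanonical D can)
    (X : 𝒱.Obj) (hV : DivisorVoevodsky H X) :
    List.TFAE [HomVoevodsky H X, AnticanonicalVoevodsky D can H X, RelCanonicalVoevodsky D H X,
      HomBundleVoevodsky D H X, ∀ E : D.B X, 1 ≤ D.rk E → HomVoevodsky H (D.P E)] := by
  have hI := homFam_adequate hC hH.isClassMap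
  have hJ := smashFam_adequate (C := C)
  have hB := isBasic hC
  have h01 : ∀ i ≤ 1, ∀ x ∈ homFam H X i, x ∈ smashFam C X i := by
    intro i hi x hx
    rcases Nat.eq_zero_or_pos i with rfl | hi0
    · rw [zero_of_cl (H := H) le_rfl hx.1 hx.2]
      exact Submodule.zero_mem _
    · obtain rfl : i = 1 := by omega
      exact (mem_smashFam hx.1).2 (hV x hx.1 hx.2)
  have h := canonical_local hB hD hcan hI hJ X h01
  have h' := local_tfae hB hD hI hJ X
  have e1 : HomVoevodsky H X ↔ AnticanonicalVoevodsky D can H X := by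
    have e : AnticanonicalVoevodsky D can H X ↔
        ImpliesForAnti D can (homFam H) (smashFam C) X := by
      refine forall_congr' fun E => forall_congr' fun _ => forall_congr' fun _ => ?_
      have h := vpow_deg hD (hcan.mem (D.P E)) (D.rk E + 1)
      exact imp_congr (mem_hom h).symm (mem_smashFam h).symm
    rw [homVoevodsky_iff, e]
    exact h.out 0 3
  have e2 : HomVoevodsky H X ↔ ∀ E : D.B X, 1 ≤ D.rk E → HomVoevodsky H (D.P E) := by
    simp only [homVoevodsky_iff]
    exact h.out 0 2
  have e3' : HomBundleVoevodsky D H X ↔ ImpliesForBundles D (homFam H) (smashFam C) X := by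
    refine forall_congr' fun E => imp_congr ?_ ?_
    · refine forall_congr' fun i => forall_congr' fun _ => ?_
      exact (mem_hom (hD.chern.c_mem E i)).symm
    · refine forall_congr' fun i => forall_congr' fun _ => ?_
      exact (mem_smashFam (hD.chern.c_mem E i)).symm
  have e3 : HomVoevodsky H X ↔ HomBundleVoevodsky D H X := by
    rw [homVoevodsky_iff, e3']
    exact h.out 0 1
  have e4 : RelCanonicalVoevodsky D H X ↔ HomBundleVoevodsky D H X := by
    have e : RelCanonicalVoevodsky D H X ↔ ∀ E : D.B X, 1 ≤ D.rk E →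
        relCan D E ^ D.rk E ∈ homFam H (D.P E) (D.rk E) →
          relCan D E ^ D.rk E ∈ smashFam C (D.P E) (D.rk E) := by
      refine forall_congr' fun E => forall_congr' fun hr => ?_
      have h := pow_deg hB (relCan_deg hD E hr) (D.rk E)
      exact imp_congr (mem_hom h).symm (mem_smashFam h).symm
    have e' : RelCanonicalVoevodsky D H X ↔
        ImpliesForCanonical D (homFam H) (smashFam C) X := by
      rw [e]
      exact ⟨fun h => ⟨h01 1 le_rfl, h⟩, fun h => h.2⟩
    rw [e', e3']
    exact h'.out 3 1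
  tfae_have 1 ↔ 2 := e1
  tfae_have 1 ↔ 4 := e3
  tfae_have 1 ↔ 5 := e2
  tfae_have 3 ↔ 4 := e4
  tfae_finish

end

end Pool.Agent.Y101.Aq
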